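import Pool.Agent.U334.CQ.Stm

set_option autoImplicit false

universe u

namespace Pool.Agent.U334.CQ

open MvPolynomial Pool.Agent.Chud Pool.Agent.H580C

/-- evaluation of forms at multiples of a vector -/
theorem eval_smul_form {k : Type*} [Field k] {N d : ℕ} (F : MvPolynomial (Fin N) k)
    (hF : F.IsHomogeneous d) (c : k) (v : Fin N → k) :
    eval (c • v) F = c ^ d * eval v F := by
  rw [eval_eq, eval_eq, Finset.mul_sum]
  refine Finset.sum_congr rfl fun m hm => ?_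
  have hd : m.degree = d := by
    rw [Finsupp.degree_eq_weight_one]
    exact hF (mem_support_iff.1 hm)
  have : ∏ i ∈ m.support, (c • v) i ^ m i = c ^ d * ∏ i ∈ m.support, v i ^ m i := by
    rw [← hd, Finsupp.degree_apply, ← Finset.prod_pow_eq_pow_sum, ← Finset.prod_mul_distrib]
    refine Finset.prod_congr rfl fun i _ => ?_
    rw [Pi.smul_apply, smul_eq_mul, mul_pow]
  rw [this]
  ring

theorem core0 (hMN : S_MN.{u}) (hPA : S_PA.{u}) (hFN : S_FN.{u}) (hML : St_ML.{u})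
    (hSU : St_SU.{u}) (hCE : St_CE.{u}) (k : Type u) [Field k] [IsAlgClosed k] (p n a : ℕ)
    [Fact p.Prime] [CharP k p] (Z₀ : Finset (Fin (n + 1) → k)) (hn : 1 ≤ n) (ha : 2 ≤ a)
    (hnz : ∀ v ∈ Z₀, v 0 ≠ 0) (hlow₀ : LowT (Z₀ : Set (Fin (n + 1) → k)) 1 a)
    (hY : ∀ x : ℕ, ∃ Y : MvPolynomial (Fin (n + 1)) k, Y ≠ 0 ∧
      Y.IsHomogeneous ((a - 1 + n) * x + (a - 2)) ∧ ∀ v ∈ Z₀, Y ∈ mI v ^ (n * x)) :
    ∃ E : MvPolynomial (Fin (n + 1)) k, E ≠ 0 ∧ E.IsHomogeneous (a - 1 + n) ∧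
      ∀ v ∈ Z₀, E ∈ mI v ^ n := by
  classical
  have hp : p.Prime := Fact.out
  have hnz' : ∀ v ∈ Z₀, v ≠ 0 := by
    intro v hv h
    apply hnz v hv
    rw [h]; rfl
  obtain ⟨Z, hZZ, hlow, h, hh⟩ := hMN k n a Z₀ (by omega) hnz' hlow₀
  have hZne : Z.Nonempty := by
    by_contra hcon
    rw [Finset.not_nonempty_iff_eq_empty] at hcon
    subst hcon
    have := hlow 1 0 one_ne_zero (isHomogeneous_one _ _) (by simp)
    omega
  obtain ⟨Y, hY0, hYh, hYv⟩ := hY (p ^ (2 ^ Z.card + a) - 1)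
  obtain ⟨v, hv, A, hA0, hAh, hAw, hAZ⟩ := hPA k p (2 ^ Z.card) a n a Z Z₀ h Y (X 0) hn ha
    (Nat.lt_pow_self hp.one_lt).le hZne hZZ hnz hlow hh hY0 hYh hYv (X_ne_zero 0)
    (isHomogeneous_X k 0)
  have hv0 : v ≠ 0 := hnz' v (hZZ hv)
  obtain ⟨e, he⟩ := hCE k n v hv0
  have he' : e.symm v = e0 k n := by rw [← he, LinearEquiv.symm_apply_apply]
  obtain ⟨s1, s2, s3, s4, -, -⟩ := hSU k (n + 1) e
  obtain ⟨r1, r2, -, r4, -, -⟩ := hSU k (n + 1) e.symm
  have hne : ∀ G : MvPolynomial (Fin (n + 1)) k, G ≠ 0 → sub e G ≠ 0 := by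
    intro G hG h
    exact hG (s1 (by rw [h, map_zero]))
  have hne' : ∀ G : MvPolynomial (Fin (n + 1)) k, G ≠ 0 → sub e.symm G ≠ 0 := by
    intro G hG h
    exact hG (r1 (by rw [h, map_zero]))
  set W : Finset (Fin (n + 1) → k) := (Z.erase v).image e.symm with hW
  have hWmem : ∀ w ∈ W, ∃ u ∈ Z, u ≠ v ∧ e w = u ∧ w = e.symm u := by
    intro w hw
    obtain ⟨u, hu, rfl⟩ := Finset.mem_image.1 hw
    exact ⟨u, Finset.mem_of_mem_erase hu, Finset.ne_of_mem_erase hu,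
      LinearEquiv.apply_symm_apply e u, rfl⟩
  have hWlow : LowT (insert (e0 k n) (W : Set (Fin (n + 1) → k))) 1 a := by
    intro G D hG0 hG hGv
    apply hlow (sub e.symm G) D (hne' G hG0) (r2 G D hG)
    intro w hw
    rw [r4]
    apply hGv
    by_cases hwv : w = v
    · left; rw [hwv, he']
    · right
      exact Finset.mem_coe.2 (Finset.mem_image_of_mem _ (Finset.mem_erase.2
        ⟨hwv, Finset.mem_coe.1 hw⟩))
  have hAh' := s2 A _ hAh
  have hAw' : ∀ w ∈ W, sub e A ∈ mI w ^ (n * (p ^ (2 ^ Z.card) - 1) + 1) := by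
    intro w hw
    obtain ⟨u, hu, huv, hwu, -⟩ := hWmem w hw
    rw [s4, hwu]
    exact hAw u hu huv
  have hAe' : sub e A ∈ mI (e0 k n) ^ (n * (p ^ (2 ^ Z.card) - 1)) := by
    rw [s4, he]
    exact hAZ v (hZZ hv)
  have hDA : DA k (p ^ (2 ^ Z.card)) n a W (sub e (h v)) (sub e A) := by
    refine ⟨hn, ha, hWlow, ?_, s2 _ _ (hh v hv).1, ?_, ?_, hAh', hAw', hAe', ?_⟩
    · intro w hw
      obtain ⟨u, hu, huv, hwu, hwu'⟩ := hWmem w hw
      by_contra hcon
      push Not at hcon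
      have h1 : w = w 0 • e0 k n := by
        ext i
        by_cases hi : i = 0
        · subst hi
          simp [e0]
        · rw [hcon i hi]
          simp [e0, hi]
      have h2 : u = w 0 • v := by
        rw [← hwu, ← he, ← map_smul, ← h1]
      have h3 := (hh v hv).2.2 u hu huv
      rw [h2, eval_smul_form (h v) (hh v hv).1, (hh v hv).2.1, mul_one] at h3
      have h4 : w 0 = 0 := by
        by_contra h5
        exact pow_ne_zero _ h5 h3
      apply hnz' u (hZZ hu)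
      rw [h2, h4, zero_smul]
    · rw [s3, he, (hh v hv).2.1]
      exact one_ne_zero
    · intro w hw
      obtain ⟨u, hu, huv, hwu, -⟩ := hWmem w hw
      rw [s3, hwu]
      exact (hh v hv).2.2 u hu huv
    · exact hML k p (2 ^ Z.card) n a (W : Set (Fin (n + 1) → k)) (sub e A) (by omega) hWlow hAh'
        (fun w hw => hAw' w (Finset.mem_coe.1 hw)) hAe'
  obtain ⟨E, hE0, hEh, hEv⟩ := hFN k p (2 ^ Z.card) n a W {w | e w ∈ Z₀} (sub e (h v)) (sub e A)
    hDA (hne A hA0) (by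
      intro w hw
      rw [s4]
      exact hAZ _ hw) (by
      have h1 : W.card ≤ Z.card := Finset.card_image_le.trans (Finset.card_erase_le)
      have h2 : 2 ^ W.card ≤ 2 ^ Z.card := Nat.pow_le_pow_right (by norm_num) h1
      exact lt_of_le_of_lt h2 (Nat.lt_pow_self hp.one_lt))
  refine ⟨sub e.symm E, hne' E hE0, r2 E _ hEh, ?_⟩
  intro w hw
  rw [r4]
  apply hEv
  change e (e.symm w) ∈ Z₀
  rw [LinearEquiv.apply_symm_apply]
  exact hw

theorem core_of (hMN : S_MN.{u}) (hPA : S_PA.{u}) (hFN : S_FN.{u}) (hML : St_ML.{u})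
    (hSU : St_SU.{u}) (hCE : St_CE.{u}) (hCO : St_CO.{u}) : S_CORE.{u} := by
  classical
  intro k _ _ p n a _ _ Z₀ hn ha hnz hlow hY
  have : Infinite k := IsAlgClosed.instInfinite
  obtain ⟨e, he⟩ := hCO k n (Z₀ : Set (Fin (n + 1) → k)) Z₀.finite_toSet
    (fun v hv => hnz v (Finset.mem_coe.1 hv))
  obtain ⟨s1, s2, -, s4, -, -⟩ := hSU k (n + 1) e
  obtain ⟨r1, r2, -, r4, -, -⟩ := hSU k (n + 1) e.symm
  have hne : ∀ G : MvPolynomial (Fin (n + 1)) k, G ≠ 0 → sub e G ≠ 0 := by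
    intro G hG h
    exact hG (s1 (by rw [h, map_zero]))
  have hne' : ∀ G : MvPolynomial (Fin (n + 1)) k, G ≠ 0 → sub e.symm G ≠ 0 := by
    intro G hG h
    exact hG (r1 (by rw [h, map_zero]))
  obtain ⟨E, hE0, hEh, hEv⟩ := core0 hMN hPA hFN hML hSU hCE k p n a (Z₀.image e.symm) hn ha
    (by
      intro v hv
      obtain ⟨u, hu, rfl⟩ := Finset.mem_image.1 hv
      exact he u (Finset.mem_coe.2 hu))
    (by
      intro G D hG0 hG hGv
      apply hlow (sub e.symm G) D (hne' G hG0) (r2 G D hG)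
      intro w hw
      rw [r4]
      exact hGv _ (Finset.mem_coe.2 (Finset.mem_image_of_mem _ (Finset.mem_coe.1 hw))))
    (by
      intro x
      obtain ⟨Y, hY0, hYh, hYv⟩ := hY x
      refine ⟨sub e Y, hne Y hY0, s2 Y _ hYh, ?_⟩
      intro v hv
      obtain ⟨u, hu, rfl⟩ := Finset.mem_image.1 hv
      rw [s4, LinearEquiv.apply_symm_apply]
      exact hYv u hu)
  refine ⟨sub e.symm E, hne' E hE0, r2 E _ hEh, ?_⟩
  intro w hw
  rw [r4]
  exact hEv _ (Finset.mem_image_of_mem _ hw)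

end Pool.Agent.U334.CQ
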