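import Pool.Agent.U334.CQ.Stm
import Pool.Agent.H580C.CH.All

set_option autoImplicit false

universe u

namespace Pool.Agent.U334.CQ

open MvPolynomial Filter Topology Pool.Agent.Chud Pool.Agent.H580C

theorem main_of (hC0 : S_CORE.{0}) (hCu : S_CORE.{u}) (hRK : S_RK.{u}) (hTR : S_TR.{u})
    (hYB : S_YB.{u}) (k : Type u) [Field k] [IsAlgClosed k] (N : ℕ) (hN : 1 ≤ N)
    (S : Finset (PP k N))
    (h : Tendsto (fun m : ℕ => (aS S m : ℝ) / m) atTop (𝓝 (((aS S 1 : ℝ) + N - 1) / N))) :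
    InHyperplane S ∨ IsStar S := by
  classical
  rcases Nat.lt_or_ge 1 (aS S 1) with ha | ha
  swap
  · exact Or.inl (t_A1 t_AS k N S hN ha)
  obtain ⟨-, hlow⟩ := t_AS k N 1 S hN
  have hne : S.Nonempty := nonempty_of_low (by omega) hlow
  have hYB' := hYB k N S hN hne ha h
  generalize ha_def : aS S 1 = a at *
  let Z₀ : Finset (Fin (N + 1) → k) := S.image (fun p => p.rep)
  have hZ : (Z₀ : Set (Fin (N + 1) → k)) = reps S := by
    ext v
    simp only [Z₀, Finset.coe_image, Set.mem_image, Finset.mem_coe, reps, Set.mem_ofPred_eq]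
    exact ⟨fun ⟨p, hp, h⟩ => ⟨p, hp, h.symm⟩, fun ⟨p, hp, h⟩ => ⟨p, hp, h.symm⟩⟩
  have hZnz : ∀ v ∈ Z₀, v ≠ 0 := by
    intro v hv
    obtain ⟨p, hp, rfl⟩ := Finset.mem_image.1 hv
    exact p.rep_nonzero
  have hY : ∀ x : ℕ, ∃ Y : MvPolynomial (Fin (N + 1)) k, Y ≠ 0 ∧
      Y.IsHomogeneous ((a - 1 + N) * x + (a - 2)) ∧ ∀ v ∈ Z₀, Y ∈ mI v ^ (N * x) := by
    intro x
    obtain ⟨Y, hY0, hYh, hYv⟩ := hYB' x
    refine ⟨Y, hY0, hYh, ?_⟩
    intro v hv
    obtain ⟨p, hp, rfl⟩ := Finset.mem_image.1 hv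
    exact hYv p hp
  have key : ∃ E : MvPolynomial (Fin (N + 1)) k, E ≠ 0 ∧ E.IsHomogeneous (a - 1 + N) ∧
      ∀ v ∈ Z₀, E ∈ mI v ^ N := by
    rcases CharP.exists k with ⟨p, hp⟩
    rcases CharP.char_is_prime_or_zero k p with hpp | h0
    · have : Fact p.Prime := ⟨hpp⟩
      exact hCu k p N a Z₀ hN ha hZnz (hZ ▸ hlow) hY
    · subst h0
      have : CharZero k := CharP.charP_to_charZero k
      by_contra hcon
      have hlow2 : LowT (Z₀ : Set (Fin (N + 1) → k)) N (a + N) := by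
        intro F d hF0 hFh hFv
        by_contra hlt
        push Not at hlt
        apply hcon
        refine ⟨F * X 0 ^ (a - 1 + N - d), mul_ne_zero hF0 (pow_ne_zero _ (X_ne_zero 0)), ?_, ?_⟩
        · have := hFh.mul ((isHomogeneous_X k (0 : Fin (N + 1))).pow (a - 1 + N - d))
          rw [one_mul, Nat.add_sub_cancel' (by omega)] at this
          exact this
        · intro v hv
          exact Ideal.mul_mem_right _ _ (hFv v (Finset.mem_coe.2 hv))
      obtain ⟨p, ip, k', ik, ia, ic, A, φ, ψ, hψ, hnz, hl1, hl2⟩ :=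
        hTR k N 1 a N (a + N) Z₀ hZnz (hZ ▸ hlow) hlow2
      have hZ' : ((Z₀.image (fun v i => φ (ψ v i)) : Finset (Fin (N + 1) → k')) :
          Set (Fin (N + 1) → k')) = {w | ∃ v ∈ Z₀, w = fun i => φ (ψ v i)} := by
        ext w
        simp only [Finset.coe_image, Set.mem_image, Finset.mem_coe, Set.mem_ofPred_eq]
        exact ⟨fun ⟨p, hp, h⟩ => ⟨p, hp, h.symm⟩, fun ⟨p, hp, h⟩ => ⟨p, hp, h.symm⟩⟩
      obtain ⟨E, hE0, hEh, hEv⟩ := hC0 k' p N a (Z₀.image (fun v i => φ (ψ v i))) hN ha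
        (by
          intro w hw
          obtain ⟨v, hv, rfl⟩ := Finset.mem_image.1 hw
          exact hnz v hv)
        (hZ' ▸ hl1)
        (by
          intro x
          obtain ⟨Y, hY0, hYh, hYv⟩ := hY x
          obtain ⟨G, hG0, hGh, hGv⟩ := hRK k k' A φ N _ (N * x) (Z₀.image ψ) Y hY0 hYh (by
            intro w hw
            obtain ⟨v, hv, rfl⟩ := Finset.mem_image.1 hw
            have : (fun i => ((ψ v i : A) : k)) = v := funext (hψ v hv)
            rw [this]
            exact hYv v hv)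
          refine ⟨G, hG0, hGh, ?_⟩
          intro w hw
          obtain ⟨v, hv, rfl⟩ := Finset.mem_image.1 hw
          exact hGv _ (Finset.mem_image_of_mem _ hv))
      have := hl2 E _ hE0 hEh (by
        rintro w ⟨v, hv, rfl⟩
        exact hEv _ (Finset.mem_image_of_mem _ hv))
      omega
  obtain ⟨E, hE0, hEh, hEv⟩ := key
  have h1 : aS S N ≤ a - 1 + N := by
    apply Nat.sInf_le
    refine ⟨E, hE0, hEh, ?_⟩
    intro p hp
    exact hEv _ (Finset.mem_image_of_mem _ hp)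
  have h2 := demailly hN S hne 1 N le_rfl
  rw [ha_def] at h2
  have h3 : a + N - 1 ≤ aS S N := by
    have e1 : 1 + N - 1 = N := by omega
    rw [e1, Nat.mul_comm] at h2
    exact Nat.le_of_mul_le_mul_right h2 hN
  have h4 : aS S N = a + N - 1 := by omega
  apply equality hN S N hN
  rw [h4, ha_def, Nat.cast_sub (by omega)]
  push_cast
  ring

end Pool.Agent.U334.CQ
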