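import Pool.Agent.U334.CQ.Stm

/-!
Project CQ, package DC: decomposition of a form in `x_1, …, x_n` at a point.
-/

set_option autoImplicit false

universe u

namespace Pool.Agent.U334.CQ

open MvPolynomial Filter Topology Pool.Agent.Chud Pool.Agent.H580C

section

variable {k : Type u} [Field k] {n : ℕ}

theorem NoX0_iff (g : MvPolynomial (Fin (n + 1)) k) :
    NoX0 g ↔ g ∈ supported k {j : Fin (n + 1) | j ≠ 0} := by
  rw [mem_supported]
  constructor
  · intro h j hj
    rw [Finset.mem_coe, mem_vars_iff_mem_support] at hj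
    obtain ⟨c, hc, hjc⟩ := hj
    rintro rfl
    exact (Finsupp.mem_support_iff.1 hjc) (h c hc)
  · intro h c hc
    by_contra h0
    have h1 : (0 : Fin (n + 1)) ∈ g.vars := (mem_vars_iff_mem_support 0).2 ⟨c, hc, Finsupp.mem_support_iff.2 h0⟩
    exact h h1 rfl

theorem NoX0_mul {f g : MvPolynomial (Fin (n + 1)) k} (hf : NoX0 f) (hg : NoX0 g) :
    NoX0 (f * g) := by
  rw [NoX0_iff] at *
  exact Subalgebra.mul_mem _ hf hg

theorem NoX0_add {f g : MvPolynomial (Fin (n + 1)) k} (hf : NoX0 f) (hg : NoX0 g) :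
    NoX0 (f + g) := by
  rw [NoX0_iff] at *
  exact Subalgebra.add_mem _ hf hg

theorem NoX0_sub {f g : MvPolynomial (Fin (n + 1)) k} (hf : NoX0 f) (hg : NoX0 g) :
    NoX0 (f - g) := by
  rw [NoX0_iff] at *
  exact Subalgebra.sub_mem _ hf hg

theorem NoX0_zero : NoX0 (0 : MvPolynomial (Fin (n + 1)) k) := by
  rw [NoX0_iff]
  exact Subalgebra.zero_mem _

theorem NoX0_one : NoX0 (1 : MvPolynomial (Fin (n + 1)) k) := by
  rw [NoX0_iff]
  exact Subalgebra.one_mem _

theorem NoX0_C (a : k) : NoX0 (C a : MvPolynomial (Fin (n + 1)) k) := by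
  rw [NoX0_iff]
  exact Subalgebra.algebraMap_mem _ a

theorem NoX0_X {j : Fin (n + 1)} (hj : j ≠ 0) : NoX0 (X j : MvPolynomial (Fin (n + 1)) k) := by
  intro c hc
  have h : c = Finsupp.single j 1 := by
    by_contra h
    rw [mem_support_iff, coeff_X, if_neg (fun h' => h h'.symm)] at hc
    exact hc rfl
  rw [h, Finsupp.single_eq_of_ne (Ne.symm hj)]

theorem NoX0_pow {f : MvPolynomial (Fin (n + 1)) k} (hf : NoX0 f) (s : ℕ) : NoX0 (f ^ s) := by
  rw [NoX0_iff] at *
  exact Subalgebra.pow_mem _ hf s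

theorem NoX0_sum {ι : Type*} (s : Finset ι) (f : ι → MvPolynomial (Fin (n + 1)) k)
    (hf : ∀ j ∈ s, NoX0 (f j)) : NoX0 (∑ j ∈ s, f j) := by
  rw [NoX0_iff]
  exact Subalgebra.sum_mem _ fun j hj => (NoX0_iff _).1 (hf j hj)

theorem NoX0_prod {ι : Type*} (s : Finset ι) (f : ι → MvPolynomial (Fin (n + 1)) k)
    (hf : ∀ j ∈ s, NoX0 (f j)) : NoX0 (∏ j ∈ s, f j) := by
  rw [NoX0_iff]
  exact Subalgebra.prod_mem _ fun j hj => (NoX0_iff _).1 (hf j hj)

theorem NoX0_monomial {c : Fin (n + 1) →₀ ℕ} (hc : c 0 = 0) (a : k) : NoX0 (monomial c a) := by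
  intro d hd
  have h : d = c := by
    by_contra h
    rw [mem_support_iff, coeff_monomial, if_neg (fun h' => h h'.symm)] at hd
    exact hd rfl
  rw [h, hc]

theorem homog_of {k : Type u} [Field k] {n : ℕ} (F : MvPolynomial (Fin n) k) (m : ℕ)
    (h : ∀ c ∈ F.support, Finsupp.degree c = m) : F.IsHomogeneous m := by
  intro c hc
  have h1 := h c (mem_support_iff.2 hc)
  rw [Finsupp.degree_eq_weight_one] at h1
  exact h1

/-- substitution of elements without `x_0` -/
theorem NoX0_aeval (f : Fin (n + 1) → MvPolynomial (Fin (n + 1)) k)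
    (hf : ∀ j, j ≠ 0 → NoX0 (f j)) {g : MvPolynomial (Fin (n + 1)) k} (hg : NoX0 g) :
    NoX0 (aeval f g) := by
  rw [g.as_sum, map_sum]
  refine NoX0_sum _ _ fun c hc => ?_
  rw [aeval_monomial]
  refine NoX0_mul (NoX0_C _) ?_
  rw [Finsupp.prod]
  refine NoX0_prod _ _ fun j hj => NoX0_pow (hf j ?_) _
  rintro rfl
  exact (Finsupp.mem_support_iff.1 hj) (hg c hc)

end

theorem t_DC : S_DC.{u} := by
  classical
  intro k _ q n m w i g hi hwi hg hg0
  set ρ : MvPolynomial (Fin (n + 1)) k →ₐ[k] MvPolynomial (Fin (n + 1)) k :=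
    aeval (fun j => if j = i then X i else X j - C (w j / w i) * X i) with hρ
  set τ : MvPolynomial (Fin (n + 1)) k →ₐ[k] MvPolynomial (Fin (n + 1)) k :=
    aeval (fun j => if j = i then X i else X j + C (w j / w i) * X i) with hτ
  have hρi : ρ (X i) = X i := by rw [hρ, aeval_X, if_pos rfl]
  have hρj : ∀ j, j ≠ i → ρ (X j) = X j - C (w j / w i) * X i := by
    intro j hj
    rw [hρ, aeval_X, if_neg hj]
  have hρτ : ∀ F, ρ (τ F) = F := by
    intro F
    have h : ρ.comp τ = AlgHom.id k _ := by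
      refine algHom_ext fun j => ?_
      rw [AlgHom.comp_apply, hτ, aeval_X]
      by_cases hj : j = i
      · rw [if_pos hj, hρi, hj]
        rfl
      · rw [if_neg hj, map_add, map_mul, hρi, hρj j hj, ← algebraMap_eq, AlgHom.commutes,
          sub_add_cancel]
        rfl
    exact congrArg (fun (f : MvPolynomial (Fin (n + 1)) k →ₐ[k] MvPolynomial (Fin (n + 1)) k) => f F) h
  have hτhom : (τ g).IsHomogeneous m := by
    have h := hg.aeval (fun j => if j = i then X i else X j + C (w j / w i) * X i : Fin (n + 1) →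
      MvPolynomial (Fin (n + 1)) k) (n := 1) (fun j => by
        split_ifs
        · exact isHomogeneous_X k i
        · refine (isHomogeneous_X k j).add ?_
          have := (isHomogeneous_C (Fin (n + 1)) (w j / w i)).mul (isHomogeneous_X k i)
          simpa using this)
    rw [one_mul] at h
    exact h
  have hρhom : ∀ (F : MvPolynomial (Fin (n + 1)) k) (d : ℕ), F.IsHomogeneous d →
      (ρ F).IsHomogeneous d := by
    intro F d hF
    have h := hF.aeval (fun j => if j = i then X i else X j - C (w j / w i) * X i : Fin (n + 1) →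
      MvPolynomial (Fin (n + 1)) k) (n := 1) (fun j => by
        split_ifs
        · exact isHomogeneous_X k i
        · refine (isHomogeneous_X k j).sub ?_
          have := (isHomogeneous_C (Fin (n + 1)) (w j / w i)).mul (isHomogeneous_X k i)
          simpa using this)
    rw [one_mul] at h
    exact h
  have hτ0 : NoX0 (τ g) := by
    refine NoX0_aeval _ (fun j hj => ?_) hg0
    split_ifs
    · exact NoX0_X hi
    · exact NoX0_add (NoX0_X hj) (NoX0_mul (NoX0_C _) (NoX0_X hi))
  have hρ0 : ∀ F, NoX0 F → NoX0 (ρ F) := by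
    intro F hF
    refine NoX0_aeval _ (fun j hj => ?_) hF
    split_ifs
    · exact NoX0_X hi
    · exact NoX0_sub (NoX0_X hj) (NoX0_mul (NoX0_C _) (NoX0_X hi))
  set s : Fin (n + 1) →₀ ℕ := Finsupp.single i q with hs
  have hdec := divMonomial_add_modMonomial (τ g) s
  have hdegs : Finsupp.degree s = q := by rw [hs, Finsupp.degree_single]
  have hsle : ∀ c : Fin (n + 1) →₀ ℕ, s ≤ c ↔ q ≤ c i := by
    intro c
    rw [hs, Finsupp.single_le_iff]
  have hG1 : ∀ c ∈ (divMonomial (τ g) s).support, s + c ∈ (τ g).support := by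
    intro c hc
    rw [mem_support_iff, coeff_divMonomial] at hc
    exact mem_support_iff.2 hc
  have hG2 : ∀ c ∈ (modMonomial (τ g) s).support, c ∈ (τ g).support ∧ c i < q := by
    intro c hc
    rw [mem_support_iff] at hc
    by_cases h : s ≤ c
    · exact absurd (coeff_modMonomial_of_le _ h) hc
    · rw [coeff_modMonomial_of_not_le _ h] at hc
      refine ⟨mem_support_iff.2 hc, ?_⟩
      rw [hsle] at h
      omega
  have hdeg : ∀ c ∈ (τ g).support, Finsupp.degree c = m := by
    intro c hc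
    by_contra h
    exact (mem_support_iff.1 hc) (hτhom.coeff_eq_zero h)
  refine ⟨ρ (divMonomial (τ g) s), ρ (modMonomial (τ g) s), ?_, ?_, ?_, ?_, ?_, ?_, ?_⟩
  · conv_lhs => rw [← hρτ g, ← hdec]
    rw [map_add, map_mul]
    congr 2
    rw [hs, ← X_pow_eq_monomial, map_pow, hρi]
  · refine hρ0 _ fun c hc => ?_
    have h := hτ0 _ (hG1 c hc)
    rw [Finsupp.add_apply] at h
    omega
  · refine hρ0 _ fun c hc => hτ0 _ (hG2 c hc).1
  · refine hρhom _ _ (homog_of _ _ fun c hc => ?_)
    have h := hdeg _ (hG1 c hc)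
    rw [map_add, hdegs] at h
    omega
  · intro hmq
    have h : divMonomial (τ g) s = 0 := by
      by_contra h0
      obtain ⟨c, hc⟩ := ne_zero_iff.1 h0
      have h := hdeg _ (hG1 c (mem_support_iff.2 hc))
      rw [map_add, hdegs] at h
      omega
    rw [h, map_zero]
  · exact hρhom _ _ (homog_of _ _ fun c hc => hdeg _ (hG2 c hc).1)
  · rw [(modMonomial (τ g) s).as_sum, map_sum]
    refine Ideal.sum_mem _ fun c hc => ?_
    obtain ⟨hc1, hc2⟩ := hG2 c hc
    have h := hdeg _ hc1
    rw [hρ, aeval_monomial]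
    refine Ideal.mul_mem_left _ _ ?_
    rw [Finsupp.prod_fintype _ _ (fun _ => pow_zero _), ← Finset.mul_prod_erase _ _ (Finset.mem_univ i)]
    refine Ideal.mul_mem_left _ _ ?_
    have h2 : ∀ (t : Finset (Fin (n + 1))), i ∉ t →
        (∏ j ∈ t, (if j = i then X i else X j - C (w j / w i) * X i :
          MvPolynomial (Fin (n + 1)) k) ^ c j) ∈ mI w ^ (∑ j ∈ t, c j) := by
      intro t ht
      induction t using Finset.induction_on with
      | empty => simp
      | insert j t hjt ih =>
        rw [Finset.prod_insert hjt, Finset.sum_insert hjt, pow_add]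
        refine Ideal.mul_mem_mul ?_ (ih fun h => ht (Finset.mem_insert_of_mem h))
        refine Ideal.pow_mem_pow ?_ _
        have hji : j ≠ i := fun h' => ht (h' ▸ Finset.mem_insert_self j t)
        rw [if_neg hji, mI, RingHom.mem_ker, map_sub,
          map_mul, eval_X, eval_C, eval_X, div_mul_cancel₀ _ hwi, sub_self]
    have h3 := h2 (Finset.univ.erase i) (Finset.notMem_erase i _)
    refine Ideal.pow_le_pow_right ?_ h3
    have h4 : c i + ∑ j ∈ Finset.univ.erase i, c j = m := by
      rw [Finset.add_sum_erase _ _ (Finset.mem_univ i), ← h, Finsupp.degree_eq_sum]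
    omega

end Pool.Agent.U334.CQ
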