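import Pool.Agent.H580C.CH.Props

/-!
Project CQ: the statements of the packages (equality in Chudnovsky's bound for the Waldschmidt
constant, all dimensions, all characteristics).
-/

set_option autoImplicit false

universe u

namespace Pool.Agent.U334.CQ

open MvPolynomial Filter Topology Pool.Agent.Chud Pool.Agent.H580C

/-- no monomial of `g` contains the variable `x_0` -/
def NoX0 {k : Type u} [Field k] {n : ℕ} (g : MvPolynomial (Fin (n + 1)) k) : Prop :=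
  ∀ c ∈ g.support, c 0 = 0

/-- minimal subsets and interpolation, for sets of vectors -/
def S_MN : Prop := ∀ (k : Type u) [Field k] (n a : ℕ) (Z₀ : Finset (Fin (n + 1) → k)), 1 ≤ a →
  (∀ v ∈ Z₀, v ≠ 0) → LowT (Z₀ : Set (Fin (n + 1) → k)) 1 a →
  ∃ Z ⊆ Z₀, LowT (Z : Set (Fin (n + 1) → k)) 1 a ∧
    ∃ h : (Fin (n + 1) → k) → MvPolynomial (Fin (n + 1)) k,
      ∀ v ∈ Z, (h v).IsHomogeneous (a - 1) ∧ eval v (h v) = 1 ∧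
        ∀ w ∈ Z, w ≠ v → eval w (h v) = 0

/-- the auxiliary forms `A`, with the orders at the points of the whole set `Z₀` -/
def S_PA : Prop := ∀ (k : Type u) [Field k] [IsAlgClosed k] (p r e n a : ℕ) [Fact p.Prime]
  [CharP k p] (Z Z₀ : Finset (Fin (n + 1) → k))
  (h : (Fin (n + 1) → k) → MvPolynomial (Fin (n + 1)) k)
  (Y l : MvPolynomial (Fin (n + 1)) k),
  1 ≤ n → 2 ≤ a → a ≤ p ^ e → Z.Nonempty → Z ⊆ Z₀ → (∀ v ∈ Z₀, v 0 ≠ 0) →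
  LowT (Z : Set (Fin (n + 1) → k)) 1 a →
  (∀ v ∈ Z, (h v).IsHomogeneous (a - 1) ∧ eval v (h v) = 1 ∧ ∀ w ∈ Z, w ≠ v → eval w (h v) = 0) →
  Y ≠ 0 → Y.IsHomogeneous ((a - 1 + n) * (p ^ (r + e) - 1) + (a - 2)) →
  (∀ v ∈ Z₀, Y ∈ mI v ^ (n * (p ^ (r + e) - 1))) → l ≠ 0 → l.IsHomogeneous 1 →
  ∃ v ∈ Z, ∃ A : MvPolynomial (Fin (n + 1)) k, A ≠ 0 ∧
    A.IsHomogeneous ((a - 1) * p ^ r + n * (p ^ r - 1)) ∧
    (∀ w ∈ Z, w ≠ v → A ∈ mI w ^ (n * (p ^ r - 1) + 1)) ∧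
    ∀ w ∈ Z₀, A ∈ mI w ^ (n * (p ^ r - 1))

/-- **Package SL**: the strict lemma. -/
def S_SL : Prop := ∀ (k : Type u) [Field k] [IsAlgClosed k] (p n a j : ℕ) [Fact p.Prime]
  [CharP k p] (v : Fin (n + 1) → k) (Z : Set (Fin (n + 1) → k))
  (h G : MvPolynomial (Fin (n + 1)) k),
  2 ≤ a → 1 ≤ j → LowT (insert v Z) 1 a → h.IsHomogeneous (a - 1) → eval v h ≠ 0 →
  (∀ w ∈ Z, eval w h = 0) → G.IsHomogeneous (a - 1 + j) → (∀ w ∈ Z, G ∈ mI w ^ (j + 1)) →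
  G ∈ mI v ^ j → G = 0

/-- **Package OL**: structure and order of the top derivative. -/
def S_OL : Prop := ∀ (k : Type u) [Field k] (p r n D : ℕ) [Fact p.Prime] [CharP k p]
  (F : MvPolynomial (Fin (n + 1)) k), F.IsHomogeneous D → p ^ r ∣ D + n →
  DvdE (p ^ r) {0} F →
  DvdE (p ^ r) Set.univ (hd (topI n (p ^ r - 1)) F) ∧
  ∀ (m : ℕ) (w : Fin (n + 1) → k) (i : Fin (n + 1)), i ≠ 0 → w i ≠ 0 →
    F ∈ mI w ^ (m + (n - 1) * (p ^ r - 1)) → hd (topI n (p ^ r - 1)) F ∈ mI w ^ m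

/-- **Package DC**: decomposition of a form in `x_1, …, x_n`. -/
def S_DC : Prop := ∀ (k : Type u) [Field k] (q n m : ℕ) (w : Fin (n + 1) → k) (i : Fin (n + 1))
  (g : MvPolynomial (Fin (n + 1)) k),
  i ≠ 0 → w i ≠ 0 → g.IsHomogeneous m → NoX0 g →
  ∃ g₁ g₂ : MvPolynomial (Fin (n + 1)) k, g = X i ^ q * g₁ + g₂ ∧ NoX0 g₁ ∧ NoX0 g₂ ∧
    g₁.IsHomogeneous (m - q) ∧ (m < q → g₁ = 0) ∧ g₂.IsHomogeneous m ∧ g₂ ∈ mI w ^ (m + 1 - q)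

/-- the data: the vectors `e₀` and `w ∈ W`, the interpolation form `h` for `e₀`, the form `A` -/
structure DA (k : Type u) [Field k] (q n a : ℕ) (W : Finset (Fin (n + 1) → k))
    (h A : MvPolynomial (Fin (n + 1)) k) : Prop where
  hn : 1 ≤ n
  ha : 2 ≤ a
  low : LowT (insert (e0 k n) (W : Set (Fin (n + 1) → k))) 1 a
  nz : ∀ w ∈ W, ∃ i : Fin (n + 1), i ≠ 0 ∧ w i ≠ 0
  hh : h.IsHomogeneous (a - 1)
  h1 : eval (e0 k n) h ≠ 0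
  h0 : ∀ w ∈ W, eval w h = 0
  Ah : A.IsHomogeneous ((a - 1) * q + n * (q - 1))
  Aw : ∀ w ∈ W, A ∈ mI w ^ (n * (q - 1) + 1)
  Ae : A ∈ mI (e0 k n) ^ (n * (q - 1))
  Ad : DvdE q {0} A

/-- **Package KL**: the kill lemma. -/
def S_KL : Prop := ∀ (k : Type u) [Field k] [IsAlgClosed k] (p r n a : ℕ) [Fact p.Prime]
  [CharP k p] (W : Finset (Fin (n + 1) → k)) (h A : MvPolynomial (Fin (n + 1)) k),
  DA k (p ^ r) n a W h A →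
  ∀ (δ : ℕ) (ι : Type u) (J : Finset ι) (lam : ι → MvPolynomial (Fin (n + 1)) k),
    (∀ j ∈ J, (lam j).IsHomogeneous 1 ∧ NoX0 (lam j)) →
    (∀ I ⊆ W, I.card ≤ δ → ∃ j ∈ J, ∀ w ∈ I, eval w (lam j) = 0) →
    ∀ (m : ℕ) (g : MvPolynomial (Fin (n + 1)) k), g.IsHomogeneous m → NoX0 g →
      J.card + m = δ * p ^ r →
      hd (topI n (p ^ r - 1)) ((∏ j ∈ J, lam j) * g * A) = 0

/-- **Package MX**: a last nonvanishing derivative. -/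
def S_MX : Prop := ∀ (k : Type u) [Field k] (p r n : ℕ) [Fact p.Prime] [CharP k p]
  (F : MvPolynomial (Fin (n + 1)) k), F ≠ 0 →
  ∃ b : Fin (n + 1) →₀ ℕ, b ≤ topI n (p ^ r - 1) ∧ hd b F ≠ 0 ∧
    DvdE (p ^ r) {i | i ≠ 0} (hd b F) ∧
    hd (topI n (p ^ r - 1)) (monomial (topI n (p ^ r - 1) - b) 1 * F) = hd b F

/-- **Package FN**: the form of degree `a - 1 + n`. -/
def S_FN : Prop := ∀ (k : Type u) [Field k] [IsAlgClosed k] (p r n a : ℕ) [Fact p.Prime]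
  [CharP k p] (W : Finset (Fin (n + 1) → k)) (Z₀ : Set (Fin (n + 1) → k))
  (h A : MvPolynomial (Fin (n + 1)) k),
  DA k (p ^ r) n a W h A → A ≠ 0 → (∀ w ∈ Z₀, A ∈ mI w ^ (n * (p ^ r - 1))) →
  2 ^ W.card < p ^ r →
  ∃ E : MvPolynomial (Fin (n + 1)) k, E ≠ 0 ∧ E.IsHomogeneous (a - 1 + n) ∧
    ∀ w ∈ Z₀, E ∈ mI w ^ n

/-- the result in positive characteristic, for vectors -/
def S_CORE : Prop := ∀ (k : Type u) [Field k] [IsAlgClosed k] (p n a : ℕ) [Fact p.Prime]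
  [CharP k p] (Z₀ : Finset (Fin (n + 1) → k)), 1 ≤ n → 2 ≤ a → (∀ v ∈ Z₀, v ≠ 0) →
  LowT (Z₀ : Set (Fin (n + 1) → k)) 1 a →
  (∀ x : ℕ, ∃ Y : MvPolynomial (Fin (n + 1)) k, Y ≠ 0 ∧
    Y.IsHomogeneous ((a - 1 + n) * x + (a - 2)) ∧ ∀ v ∈ Z₀, Y ∈ mI v ^ (n * x)) →
  ∃ E : MvPolynomial (Fin (n + 1)) k, E ≠ 0 ∧ E.IsHomogeneous (a - 1 + n) ∧
    ∀ v ∈ Z₀, E ∈ mI v ^ n

/-- **Package RK**: forms with given orders specialise. -/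
def S_RK : Prop := ∀ (K : Type u) [Field K] (k : Type) [Field k] (A : Subring K) (φ : A →+* k)
  (n d m : ℕ) (Z : Finset (Fin (n + 1) → A)) (F : MvPolynomial (Fin (n + 1)) K), F ≠ 0 →
  F.IsHomogeneous d → (∀ v ∈ Z, F ∈ mI (fun i => ((v i : A) : K)) ^ m) →
  ∃ G : MvPolynomial (Fin (n + 1)) k, G ≠ 0 ∧ G.IsHomogeneous d ∧
    ∀ v ∈ Z, G ∈ mI (fun i => φ (v i)) ^ m

/-- **Package TR**: reduction to positive characteristic with two conditions. -/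
def S_TR : Prop := ∀ (K : Type u) [Field K] [CharZero K] (n t₁ a₁ t₂ a₂ : ℕ)
  (Z : Finset (Fin (n + 1) → K)), (∀ v ∈ Z, v ≠ 0) →
  LowT (Z : Set (Fin (n + 1) → K)) t₁ a₁ → LowT (Z : Set (Fin (n + 1) → K)) t₂ a₂ →
  ∃ (p : ℕ) (_ : Fact p.Prime) (k : Type) (_ : Field k) (_ : IsAlgClosed k) (_ : CharP k p)
    (A : Subring K) (φ : A →+* k) (ψ : (Fin (n + 1) → K) → (Fin (n + 1) → A)),
    (∀ v ∈ Z, ∀ i, ((ψ v i : A) : K) = v i) ∧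
    (∀ v ∈ Z, (fun i => φ (ψ v i)) ≠ (0 : Fin (n + 1) → k)) ∧
    LowT {w : Fin (n + 1) → k | ∃ v ∈ Z, w = fun i => φ (ψ v i)} t₁ a₁ ∧
    LowT {w : Fin (n + 1) → k | ∃ v ∈ Z, w = fun i => φ (ψ v i)} t₂ a₂

/-- from the Waldschmidt constant to forms of given degrees and orders -/
def S_YB : Prop := ∀ (k : Type u) [Field k] [IsAlgClosed k] (N : ℕ) (S : Finset (PP k N)),
  1 ≤ N → S.Nonempty → 2 ≤ aS S 1 →
  Tendsto (fun m : ℕ => (aS S m : ℝ) / m) atTop (𝓝 (((aS S 1 : ℝ) + N - 1) / N)) →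
  ∀ x : ℕ, ∃ Y : MvPolynomial (Fin (N + 1)) k, Y ≠ 0 ∧
    Y.IsHomogeneous ((aS S 1 - 1 + N) * x + (aS S 1 - 2)) ∧ ∀ p ∈ S, Y ∈ mI p.rep ^ (N * x)

end Pool.Agent.U334.CQ
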