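import Pool.Agent.H580C.CH.All
import Pool.Agent.U334.CQ.Stm

/-!
Project CQ, package FN: the form of degree `a - 1 + n`.
-/

set_option autoImplicit false

universe u

namespace Pool.Agent.U334.CQ

open MvPolynomial Pool.Agent.Chud Pool.Agent.H580C

namespace FN

variable {k : Type u} [Field k] {n : ℕ}

theorem nox0_mul {f g : MvPolynomial (Fin (n + 1)) k} (hf : NoX0 f) (hg : NoX0 g) :
    NoX0 (f * g) := by
  classical
  intro c hc
  obtain ⟨c1, h1, c2, h2, rfl⟩ := Finset.mem_add.1 (support_mul f g hc)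
  simp [hf c1 h1, hg c2 h2]

theorem nox0_one : NoX0 (1 : MvPolynomial (Fin (n + 1)) k) := by
  classical
  intro c hc
  rw [mem_support_iff, coeff_one] at hc
  by_cases h : (0 : Fin (n + 1) →₀ ℕ) = c
  · rw [← h]; rfl
  · rw [if_neg h] at hc
    exact absurd rfl hc

theorem nox0_prod {ι : Type*} (J : Finset ι) (lam : ι → MvPolynomial (Fin (n + 1)) k)
    (h : ∀ j ∈ J, NoX0 (lam j)) : NoX0 (∏ j ∈ J, lam j) :=
  Finset.prod_induction lam NoX0 (fun _ _ => nox0_mul) nox0_one h

theorem nox0_sum {ι : Type*} (J : Finset ι) (lam : ι → MvPolynomial (Fin (n + 1)) k)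
    (h : ∀ j ∈ J, NoX0 (lam j)) : NoX0 (∑ j ∈ J, lam j) := by
  intro c hc
  rw [mem_support_iff, coeff_sum] at hc
  obtain ⟨j, hj, hjc⟩ := Finset.exists_ne_zero_of_sum_ne_zero hc
  exact h j hj c (mem_support_iff.2 hjc)

theorem nox0_monomial (b : Fin (n + 1) →₀ ℕ) (hb : b 0 = 0) (x : k) :
    NoX0 (monomial b x) := by
  classical
  intro c hc
  rw [mem_support_iff, coeff_monomial] at hc
  by_cases h : b = c
  · rw [← h]; exact hb
  · rw [if_neg h] at hc
    exact absurd rfl hc

/-- a nonzero linear form without `x_0` vanishing at few points -/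
theorem exists_lin (I : Finset (Fin (n + 1) → k)) (hI : I.card < n) :
    ∃ l : MvPolynomial (Fin (n + 1)) k, l ≠ 0 ∧ l.IsHomogeneous 1 ∧ NoX0 l ∧
      ∀ w ∈ I, eval w l = 0 := by
  classical
  let f : (Fin n → k) →ₗ[k] (I → k) :=
    { toFun := fun c w => ∑ i, c i * (w : Fin (n + 1) → k) i.succ
      map_add' := by
        intro c c'
        funext w
        simp [add_mul, Finset.sum_add_distrib]
      map_smul' := by
        intro a c
        funext w
        simp [Finset.mul_sum, mul_assoc] }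
  have hker : LinearMap.ker f ≠ ⊥ := by
    apply LinearMap.ker_ne_bot_of_finrank_lt
    rw [Module.finrank_fintype_fun_eq_card, Module.finrank_fintype_fun_eq_card, Fintype.card_coe,
      Fintype.card_fin]
    exact hI
  obtain ⟨c, hc, hc0⟩ := Submodule.exists_mem_ne_zero_of_ne_bot hker
  have hcf : f c = 0 := hc
  refine ⟨∑ i : Fin n, monomial (Finsupp.single i.succ 1) (c i), ?_, ?_, ?_, ?_⟩
  · intro h
    apply hc0
    funext i
    have h1 := congrArg (coeff (Finsupp.single i.succ 1)) h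
    rw [coeff_sum, coeff_zero, Finset.sum_eq_single i] at h1
    · simpa using h1
    · intro j _ hj
      rw [coeff_monomial, if_neg]
      intro h2
      apply hj
      have h3 := (Finsupp.single_left_inj (one_ne_zero)).1 h2
      exact Fin.succ_injective _ h3
    · intro h2
      exact absurd (Finset.mem_univ i) h2
  · apply IsHomogeneous.sum
    intro i _
    apply isHomogeneous_monomial
    simp
  · apply nox0_sum
    intro i _
    apply nox0_monomial
    simp [Fin.succ_ne_zero]
  · intro w hw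
    have h1 := congrFun hcf ⟨w, hw⟩
    simp only [map_sum, eval_monomial]
    rw [← (show f c ⟨w, hw⟩ = 0 from h1)]
    show _ = ∑ i, c i * w i.succ
    refine Finset.sum_congr rfl fun i _ => ?_
    rw [Finsupp.prod_single_index] <;> simp

theorem dvdE_mul {q : ℕ} {f g : MvPolynomial (Fin (n + 1)) k} (hf : NoX0 f)
    (hg : DvdE q {0} g) : DvdE q {0} (f * g) := by
  classical
  intro c hc i hi
  obtain ⟨c1, h1, c2, h2, rfl⟩ := Finset.mem_add.1 (support_mul f g hc)
  have hi0 : i = 0 := hi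
  subst hi0
  simpa [hf c1 h1] using hg c2 h2 0 rfl

theorem topI_zero (n c : ℕ) : (topI n c) 0 = 0 := by
  simp [topI]

end FN

open FN

theorem t_FN (hKL : S_KL.{u}) (hMX : S_MX.{u}) : S_FN.{u} := by
  classical
  intro k _ _ p r n a _ _ W Z₀ h A hDA hA0 hAZ hcard
  have hp : p.Prime := Fact.out
  have hq : 0 < p ^ r := pow_pos hp.pos r
  have hn := hDA.hn
  have ha := hDA.ha
  -- the linear forms
  have hlin : ∀ I : Finset (Fin (n + 1) → k), ∃ l : MvPolynomial (Fin (n + 1)) k,
      l ≠ 0 ∧ l.IsHomogeneous 1 ∧ NoX0 l ∧ (I.card < n → ∀ w ∈ I, eval w l = 0) := by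
    intro I
    by_cases hI : I.card < n
    · obtain ⟨l, h1, h2, h3, h4⟩ := exists_lin I hI
      exact ⟨l, h1, h2, h3, fun _ => h4⟩
    · obtain ⟨l, h1, h2, h3, -⟩ := exists_lin (k := k) (n := n) ∅ (by rw [Finset.card_empty]; omega)
      exact ⟨l, h1, h2, h3, fun hh => absurd hh hI⟩
  choose lam hl0 hl1 hlN hlv using hlin
  set J : Finset (Finset (Fin (n + 1) → k)) := W.powerset.filter (fun I => I.card < n) with hJ
  have hJ1 : 1 ≤ J.card := by
    rw [Nat.one_le_iff_ne_zero, Ne, Finset.card_eq_zero]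
    intro hem
    have : (∅ : Finset (Fin (n + 1) → k)) ∈ J := by
      rw [hJ, Finset.mem_filter]
      exact ⟨Finset.empty_mem_powerset W, by rw [Finset.card_empty]; omega⟩
    rw [hem] at this
    exact absurd this (Finset.notMem_empty _)
  have hJq : J.card < p ^ r := by
    refine lt_of_le_of_lt ?_ hcard
    rw [← Finset.card_powerset]
    exact Finset.card_le_card (Finset.filter_subset _ _)
  set L : MvPolynomial (Fin (n + 1)) k := ∏ I ∈ J, lam I with hL
  have hL0 : L ≠ 0 := Finset.prod_ne_zero_iff.2 fun I _ => hl0 I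
  have hLh : L.IsHomogeneous J.card := by
    have := IsHomogeneous.prod J lam (fun _ => 1) (fun I _ => hl1 I)
    simpa using this
  have hLN : NoX0 L := nox0_prod J lam fun I _ => hlN I
  have hF0 : L * A ≠ 0 := mul_ne_zero hL0 hA0
  have hFh : (L * A).IsHomogeneous (J.card + ((a - 1) * p ^ r + n * (p ^ r - 1))) := hLh.mul hDA.Ah
  have hFd : DvdE (p ^ r) {0} (L * A) := dvdE_mul hLN hDA.Ad
  obtain ⟨b, hbT, hbne, hbd, hbtop⟩ := hMX k p r n (L * A) hF0
  have hb0 : b 0 = 0 := by
    have := hbT 0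
    rw [topI_zero] at this
    omega
  have hmon : ∀ m, coeff m (hd b (L * A)) ≠ 0 → coeff (m + b) (L * A) ≠ 0 := by
    intro m hm h
    apply hm
    rw [t_HC k (n + 1) b m, h, mul_zero]
  have hbuniv : DvdE (p ^ r) Set.univ (hd b (L * A)) := by
    intro m hm i _
    by_cases hi : i = 0
    · subst hi
      have h1 := hFd (m + b) (mem_support_iff.2 (hmon m (mem_support_iff.1 hm))) 0 rfl
      simpa [hb0] using h1
    · exact hbd m hm i hi
  have hTdeg : (topI n (p ^ r - 1)).degree = n * (p ^ r - 1) := TS_deg n (p ^ r - 1)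
  have hsplit : (topI n (p ^ r - 1) - b) + b = topI n (p ^ r - 1) := tsub_add_cancel_of_le hbT
  have hdegs : (topI n (p ^ r - 1) - b).degree + b.degree = n * (p ^ r - 1) := by
    rw [← map_add, hsplit, hTdeg]
  obtain ⟨c', d', G, -, hGh, hdd, hbG, hc'⟩ := t_RT k p r (n + 1) _ 0 (hd b (L * A)) hbne
    (p_HH k (n + 1) b _ (L * A) hFh) (fun m hm i hi => hbd m hm i hi)
  have hc'0 := hc' hbuniv
  subst hc'0
  rw [pow_zero, one_mul] at hbG
  rw [zero_add] at hdd
  have hG0 : G ≠ 0 := by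
    intro h
    rw [h, zero_pow hq.ne'] at hbG
    exact hbne hbG
  set M := (topI n (p ^ r - 1) - b).degree with hM
  have hsum : (a - 1) * p ^ r + (J.card + M) = p ^ r * d' := by omega
  have hd'a : a - 1 < d' := by
    by_contra hlt
    push Not at hlt
    have h1 : p ^ r * d' ≤ p ^ r * (a - 1) := Nat.mul_le_mul_left _ hlt
    rw [Nat.mul_comm (a - 1)] at hsum
    omega
  obtain ⟨δ, rfl⟩ : ∃ δ, d' = a - 1 + δ := ⟨d' - (a - 1), by omega⟩
  have hδ1 : 1 ≤ δ := by omega
  have hδ : J.card + M = δ * p ^ r := by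
    have h1 : p ^ r * (a - 1 + δ) = (a - 1) * p ^ r + δ * p ^ r := by ring
    omega
  have hδn : n ≤ δ := by
    by_contra hlt
    push Not at hlt
    have hK := hKL k p r n a W h A hDA δ (Finset (Fin (n + 1) → k)) J lam
      (fun I _ => ⟨hl1 I, hlN I⟩) (by
        intro I hIW hIδ
        refine ⟨I, ?_, hlv I (lt_of_le_of_lt hIδ hlt)⟩
        rw [hJ, Finset.mem_filter, Finset.mem_powerset]
        exact ⟨hIW, lt_of_le_of_lt hIδ hlt⟩) M (monomial (topI n (p ^ r - 1) - b) 1)
        (isHomogeneous_monomial 1 rfl) (nox0_monomial _ (by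
          rw [Finsupp.tsub_apply, topI_zero, Nat.zero_sub]) 1) hδ
    apply hbne
    rw [← hbtop, ← hK]
    congr 1
    ring
  have hδn' : δ ≤ n := by
    by_contra hlt
    push Not at hlt
    have h1 : (n + 1) * p ^ r ≤ δ * p ^ r := Nat.mul_le_mul_right _ hlt
    have h2 : n * (p ^ r - 1) ≤ n * p ^ r := Nat.mul_le_mul_left _ (by omega)
    have h3 : (n + 1) * p ^ r = n * p ^ r + p ^ r := by ring
    omega
  have hδe : δ = n := le_antisymm hδn' hδn
  subst hδe
  refine ⟨G, hG0, hGh, ?_⟩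
  intro w hw
  have h1 : L * A ∈ mI w ^ (δ * (p ^ r - 1)) := Ideal.mul_mem_left _ _ (hAZ w hw)
  have h2 := t_HM k (δ + 1) b w _ (L * A) h1
  rw [hbG, mem_mI_pow_iff w (pow_ne_zero _ hG0), ML_mu_pow w hG0] at h2
  rw [mem_mI_pow_iff w hG0]
  by_contra hlt
  push Not at hlt
  have h3 : p ^ r * mu w G ≤ p ^ r * (δ - 1) := Nat.mul_le_mul_left _ (by omega)
  have h4 : p ^ r * (δ - 1) + p ^ r = δ * p ^ r := by
    obtain ⟨e, rfl⟩ : ∃ e, δ = e + 1 := ⟨δ - 1, by omega⟩
    rw [Nat.add_sub_cancel]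
    ring
  omega

end Pool.Agent.U334.CQ
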