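import Pool.Agent.H580C.CH.All
import Pool.Agent.U334.CQ.Stm

/-!
Project CQ, package KL: the kill lemma.
-/

set_option autoImplicit false

universe u

namespace Pool.Agent.U334.CQ

open MvPolynomial Pool.Agent.Chud Pool.Agent.H580C

theorem KL_DvdE_mul {k : Type u} [Field k] {n q : ℕ} {g A : MvPolynomial (Fin (n + 1)) k}
    (hg : NoX0 g) (hA : DvdE q {0} A) : DvdE q {0} (g * A) := by
  classical
  intro c hc i hi
  obtain ⟨c1, h1, c2, h2, h3⟩ := Finset.mem_add.1 (support_mul g A hc)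
  rw [Set.mem_singleton_iff] at hi
  subst hi
  rw [← h3, Finsupp.add_apply, hg c1 h1, zero_add]
  exact hA c2 h2 0 (Set.mem_singleton _)

theorem KL_NoX0_mul {k : Type u} [Field k] {n : ℕ} {g g' : MvPolynomial (Fin (n + 1)) k}
    (hg : NoX0 g) (hg' : NoX0 g') : NoX0 (g * g') := by
  classical
  intro c hc
  obtain ⟨c1, h1, c2, h2, h3⟩ := Finset.mem_add.1 (support_mul g g' hc)
  rw [← h3, Finsupp.add_apply, hg c1 h1, hg' c2 h2]

theorem KL_NoX0_one {k : Type u} [Field k] {n : ℕ} : NoX0 (1 : MvPolynomial (Fin (n + 1)) k) := by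
  classical
  intro c hc
  rw [mem_support_iff, coeff_one] at hc
  by_cases h : 0 = c
  · rw [← h]; rfl
  · rw [if_neg h] at hc
    exact absurd rfl hc

theorem KL_NoX0_prod {k : Type u} [Field k] {n : ℕ} {ι : Type u} (J : Finset ι)
    (lam : ι → MvPolynomial (Fin (n + 1)) k) (h : ∀ j ∈ J, NoX0 (lam j)) :
    NoX0 (∏ j ∈ J, lam j) := by
  classical
  induction J using Finset.induction_on with
  | empty => rw [Finset.prod_empty]; exact KL_NoX0_one
  | insert a s ha ih =>
    rw [Finset.prod_insert ha]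
    exact KL_NoX0_mul (h a (Finset.mem_insert_self a s))
      (ih fun j hj => h j (Finset.mem_insert_of_mem hj))

theorem KL_hom_prod {k : Type u} [Field k] {n : ℕ} {ι : Type u} (J : Finset ι)
    (lam : ι → MvPolynomial (Fin (n + 1)) k) (h : ∀ j ∈ J, (lam j).IsHomogeneous 1) :
    (∏ j ∈ J, lam j).IsHomogeneous J.card := by
  have := IsHomogeneous.prod J lam (fun _ => 1) h
  rwa [Finset.sum_const, smul_eq_mul, mul_one] at this

theorem KL_mI_prod {k : Type u} [Field k] {n : ℕ} {ι : Type u} (w : Fin (n + 1) → k)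
    (J : Finset ι) (lam : ι → MvPolynomial (Fin (n + 1)) k) (h : ∀ j ∈ J, eval w (lam j) = 0) :
    (∏ j ∈ J, lam j) ∈ mI w ^ J.card := by
  classical
  induction J using Finset.induction_on with
  | empty => simp
  | insert a s ha ih =>
    rw [Finset.prod_insert ha, Finset.card_insert_of_notMem ha, pow_succ']
    exact Ideal.mul_mem_mul (RingHom.mem_ker.2 (h a (Finset.mem_insert_self a s)))
      (ih fun j hj => h j (Finset.mem_insert_of_mem hj))

theorem KL_top_degree (n c : ℕ) : (topI n c).degree = n * c := by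
  rw [Finsupp.degree_eq_sum, Fin.sum_univ_succ]
  simp [topI, Fin.succ_ne_zero]

theorem KL_eq_zero_sub {M : Type*} [AddMonoid M] {a b : M} (h : a = 0) : a + b = b := by
  rw [h, zero_add]

theorem t_KL (hSL : S_SL.{u}) (hOL : S_OL.{u}) (hDC : S_DC.{u}) : S_KL.{u} := by
  classical
  intro k _ _ p r n a _ _ W h A hD δ
  have hp : p.Prime := Fact.out
  have hq : 0 < p ^ r := pow_pos hp.pos r
  set q := p ^ r with hqdef
  have hn := hD.hn
  have ha := hD.ha
  -- numbers
  obtain ⟨q', hq'⟩ : ∃ q', q = q' + 1 := ⟨q - 1, by omega⟩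
  obtain ⟨n', hn'⟩ : ∃ n', n = n' + 1 := ⟨n - 1, by omega⟩
  induction δ with
  | zero =>
    intro ι J lam hlam hsub m g hg hgx hcard
    obtain ⟨j, hj, -⟩ := hsub ∅ (Finset.empty_subset _) (by simp)
    have := Finset.card_pos.2 ⟨j, hj⟩
    omega
  | succ δ ih =>
    intro ι J lam hlam hsub m g hg hgx hcard
    by_contra hP
    have hB : NoX0 ((∏ j ∈ J, lam j) * g) :=
      KL_NoX0_mul (KL_NoX0_prod J lam fun j hj => (hlam j hj).2) hgx
    have hBh : ((∏ j ∈ J, lam j) * g).IsHomogeneous ((δ + 1) * q) := by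
      rw [← hcard]
      exact (KL_hom_prod J lam fun j hj => (hlam j hj).1).mul hg
    set F : MvPolynomial (Fin (n + 1)) k := (∏ j ∈ J, lam j) * g * A with hF
    set D : ℕ := (δ + 1) * q + ((a - 1) * q + n * (q - 1)) with hDd
    have hFh : F.IsHomogeneous D := hBh.mul hD.Ah
    have hFd : DvdE q {0} F := KL_DvdE_mul hB hD.Ad
    have hqD : q ∣ D + n := by
      refine ⟨δ + 1 + (a - 1) + n, ?_⟩
      rw [hDd, hq']
      rw [Nat.add_sub_cancel]
      ring
    obtain ⟨hPu, -⟩ := hOL k p r n D F hFh hqD hFd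
    set P := hd (topI n (q - 1)) F with hPdef
    have hPh : P.IsHomogeneous (q * (a - 1 + (δ + 1))) := by
      have h1 := p_HH k (n + 1) (topI n (q - 1)) D F hFh
      rw [KL_top_degree] at h1
      have h2 : D - n * (q - 1) = q * (a - 1 + (δ + 1)) := by
        rw [hDd, ← add_assoc, Nat.add_sub_cancel]
        ring
      rw [h2] at h1
      exact h1
    obtain ⟨c, d', G, -, hGh, hdd, hPG, hc⟩ := t_RT k p r (n + 1) _ 0 P hP hPh
      (fun m hm i _ => hPu m hm i (Set.mem_univ i))
    have hc0 := hc hPu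
    subst hc0
    rw [pow_zero, one_mul] at hPG
    rw [zero_add] at hdd
    have hd' : d' = a - 1 + (δ + 1) := (Nat.eq_of_mul_eq_mul_left hq hdd).symm
    have hG0 : G ≠ 0 := by
      intro h0
      rw [h0, zero_pow hq.ne'] at hPG
      exact hP hPG
    -- the order at `e₀`
    have hGe : G ∈ mI (e0 k n) ^ (δ + 1) := by
      have h1 : ((∏ j ∈ J, lam j) * g) ∈ mI (e0 k n) ^ ((δ + 1) * q) := by
        rw [t_OE k n _ _ _ hBh]
        intro c hc
        rw [hB c hc, zero_add]
      have h2 : F ∈ mI (e0 k n) ^ ((δ + 1) * q + n * (q - 1)) := by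
        rw [pow_add]
        exact Ideal.mul_mem_mul h1 hD.Ae
      have h3 := t_HM k (n + 1) (topI n (q - 1)) (e0 k n) _ F h2
      rw [KL_top_degree, Nat.add_sub_cancel] at h3
      change P ∈ _ at h3
      rw [hPG, mem_mI_pow_iff _ (pow_ne_zero _ hG0), ML_mu_pow _ hG0, Nat.mul_comm] at h3
      rw [mem_mI_pow_iff _ hG0]
      exact Nat.le_of_mul_le_mul_left h3 hq
    -- the orders at the points of `W`
    have hGw : ∀ w ∈ (W : Set (Fin (n + 1) → k)), G ∈ mI w ^ (δ + 1 + 1) := by
      intro w hw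
      have hw' : w ∈ W := hw
      obtain ⟨i, hi0, hwi⟩ := hD.nz w hw'
      set Jw := J.filter (fun j => eval w (lam j) = 0) with hJw
      set Jn := J.filter (fun j => ¬ eval w (lam j) = 0) with hJn
      have hcardJ : Jw.card + Jn.card = J.card := Finset.card_filter_add_card_filter_not _
      have hprod : (∏ j ∈ Jw, lam j) * ∏ j ∈ Jn, lam j = ∏ j ∈ J, lam j :=
        Finset.prod_filter_mul_prod_filter_not J _ lam
      have hJwJ : ∀ j ∈ Jw, j ∈ J := fun j hj => (Finset.mem_filter.1 hj).1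
      have hJnJ : ∀ j ∈ Jn, j ∈ J := fun j hj => (Finset.mem_filter.1 hj).1
      set g' := (∏ j ∈ Jn, lam j) * g with hg'
      have hg'x : NoX0 g' := KL_NoX0_mul (KL_NoX0_prod Jn lam fun j hj => (hlam j (hJnJ j hj)).2) hgx
      have hg'h : g'.IsHomogeneous (Jn.card + m) :=
        (KL_hom_prod Jn lam fun j hj => (hlam j (hJnJ j hj)).1).mul hg
      obtain ⟨g₁, g₂, hgg, hg1x, hg2x, hg1h, hg10, hg2h, hg2w⟩ :=
        hDC k q n (Jn.card + m) w i g' hi0 hwi hg'h hg'x
      have hsubw : ∀ I ⊆ W, I.card ≤ δ → ∃ j ∈ Jw, ∀ w ∈ I, eval w (lam j) = 0 := by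
        intro I hI hIc
        obtain ⟨j, hj, hj2⟩ := hsub (insert w I) (Finset.insert_subset hw' hI)
          (le_trans (Finset.card_insert_le w I) (by omega))
        exact ⟨j, Finset.mem_filter.2 ⟨hj, hj2 w (Finset.mem_insert_self w I)⟩,
          fun w' hw' => hj2 w' (Finset.mem_insert_of_mem hw')⟩
      have hkill : hd (topI n (q - 1)) ((∏ j ∈ Jw, lam j) * g₁ * A) = 0 := by
        by_cases hmq : Jn.card + m < q
        · rw [hg10 hmq, mul_zero, zero_mul, map_zero]
        · refine ih ι Jw lam (fun j hj => hlam j (hJwJ j hj)) hsubw (Jn.card + m - q) g₁ hg1h hg1x ?_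
          have : (δ + 1) * q = δ * q + q := by ring
          omega
      have hPF2 : P = hd (topI n (q - 1)) ((∏ j ∈ Jw, lam j) * g₂ * A) := by
        have e1 : F = X i ^ q * ((∏ j ∈ Jw, lam j) * g₁ * A) + (∏ j ∈ Jw, lam j) * g₂ * A := by
          rw [hF, ← hprod, mul_assoc (∏ j ∈ Jw, lam j), ← hg', hgg]
          ring
        have e2 := t_HP k p r (n + 1) (topI n (q - 1)) (X i) ((∏ j ∈ Jw, lam j) * g₁ * A) (by
          intro i
          simp only [topI, Finsupp.coe_equivFunOnFinite_symm]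
          split_ifs <;> omega)
        rw [hPdef, e1, map_add, hqdef, e2, ← hqdef, hkill, mul_zero, zero_add]
      have hB2 : NoX0 ((∏ j ∈ Jw, lam j) * g₂) :=
        KL_NoX0_mul (KL_NoX0_prod Jw lam fun j hj => (hlam j (hJwJ j hj)).2) hg2x
      have hB2h : ((∏ j ∈ Jw, lam j) * g₂).IsHomogeneous ((δ + 1) * q) := by
        have h1 := (KL_hom_prod Jw lam fun j hj => (hlam j (hJwJ j hj)).1).mul hg2h
        have h2 : Jw.card + (Jn.card + m) = (δ + 1) * q := by omega
        rwa [h2] at h1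
      have hF2w : (∏ j ∈ Jw, lam j) * g₂ * A ∈
          mI w ^ ((δ + 1) * q + 1 + (n - 1) * (q - 1)) := by
        have h1 : (∏ j ∈ Jw, lam j) * g₂ * A ∈
            mI w ^ (Jw.card + (Jn.card + m + 1 - q) + (n * (q - 1) + 1)) := by
          rw [pow_add, pow_add]
          exact Ideal.mul_mem_mul (Ideal.mul_mem_mul
            (KL_mI_prod w Jw lam fun j hj => (Finset.mem_filter.1 hj).2) hg2w) (hD.Aw w hw')
        refine Ideal.pow_le_pow_right ?_ h1
        have h2 : (δ + 1) * q = δ * q + q := by ring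
        have h3 : (n - 1) * (q - 1) + (q - 1) = n * (q - 1) := by
          rw [hn', Nat.add_sub_cancel]
          ring
        omega
      have hPw : P ∈ mI w ^ ((δ + 1) * q + 1) := by
        rw [hPF2]
        exact (hOL k p r n D _ (hB2h.mul hD.Ah) hqD (KL_DvdE_mul hB2 hD.Ad)).2 _ w i hi0 hwi hF2w
      rw [hPG, mem_mI_pow_iff _ (pow_ne_zero _ hG0), ML_mu_pow _ hG0] at hPw
      rw [mem_mI_pow_iff _ hG0]
      by_contra hlt
      push Not at hlt
      have h4 : p ^ r * mu w G ≤ (δ + 1) * q := by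
        rw [Nat.mul_comm (δ + 1) q]
        exact Nat.mul_le_mul_left _ (by omega)
      omega
    have hfin := hSL k p n a (δ + 1) (e0 k n) (W : Set (Fin (n + 1) → k)) h G ha (by omega) hD.low
      hD.hh hD.h1 (fun w hw => hD.h0 w hw) (by rw [← hd']; exact hGh) hGw hGe
    exact hG0 hfin

end Pool.Agent.U334.CQ
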