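import Pool.Agent.U334.CQ.Stm
import Pool.Agent.H580C.CH.T_HC
import Pool.Agent.H580C.CH.T_HX
import Pool.Agent.H580C.CH.T_LU
import Pool.Agent.H580C.CH.T_KD

/-!
Project CQ, package MX: a last nonvanishing Hasse derivative.
-/

set_option autoImplicit false

universe u

namespace Pool.Agent.U334.CQ

open MvPolynomial Pool.Agent.Chud Pool.Agent.H580C

private lemma MX_hd_mul {k : Type u} [Field k] {N : ℕ} (b : Fin N →₀ ℕ)
    (F G : MvPolynomial (Fin N) k) :
    hd b (F * G) = ∑ x ∈ Finset.HasAntidiagonal.antidiagonal b, hd x.1 F * hd x.2 G := by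
  classical
  simp only [hd_apply]
  rw [map_mul, coeff_mul]

private lemma MX_hd_monomial_zero {k : Type u} [Field k] {N : ℕ} (u c : Fin N →₀ ℕ)
    (h : ¬ u ≤ c) : hd u (monomial c (1 : k)) = 0 := by
  classical
  ext m
  rw [t_HC, coeff_monomial, if_neg, mul_zero, coeff_zero]
  intro h2
  apply h
  rw [h2]
  exact le_add_self

private lemma MX_hd_monomial_self {k : Type u} [Field k] {N : ℕ} (c : Fin N →₀ ℕ) :
    hd c (monomial c (1 : k)) = 1 := by
  classical
  ext m
  rw [t_HC, coeff_monomial, coeff_one]
  by_cases hm : m = 0
  · subst hm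
    simp
  · rw [if_neg, if_neg (fun h => hm h.symm), mul_zero]
    intro h2
    apply hm
    have h3 : 0 + c = m + c := by rw [zero_add]; exact h2
    exact (add_right_cancel h3).symm

private lemma MX_hd_zero {k : Type u} [Field k] {N : ℕ} (F : MvPolynomial (Fin N) k) :
    hd 0 F = F := by
  classical
  ext m
  rw [t_HC]
  simp

/-- **Package MX**. -/
theorem t_MX2 : S_MX.{u} := by
  classical
  intro k _ p r n _ _ F hF
  have hq0 : 0 < p ^ r := pow_pos (Fact.out : p.Prime).pos r
  set q := p ^ r with hq
  set top := topI n (q - 1) with htop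
  have htop0 : top 0 = 0 := by simp [htop, topI]
  have htopi : ∀ i : Fin (n + 1), i ≠ 0 → top i = q - 1 := by
    intro i hi; simp [htop, topI, hi]
  let S : Finset (Fin (n + 1) →₀ ℕ) := (Finset.Iic top).filter (fun b => hd b F ≠ 0)
  have hS : ∀ b : Fin (n + 1) →₀ ℕ, b ∈ S ↔ b ≤ top ∧ hd b F ≠ 0 := by
    intro b
    simp only [S, Finset.mem_filter, Finset.mem_Iic]
  have hne : S.Nonempty := ⟨0, (hS 0).2 ⟨zero_le, by rw [MX_hd_zero]; exact hF⟩⟩
  obtain ⟨b, hbS, hmax⟩ := Finset.exists_max_image S (fun b => b.degree) hne
  obtain ⟨h1, h2⟩ := (hS b).1 hbS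
  have hbq : ∀ i, b i < q := by
    intro i
    by_cases hi : i = 0
    · subst hi
      have := h1 0
      omega
    · have := h1 i
      rw [htopi i hi] at this
      omega
  have hb0 : b 0 = 0 := by
    have := h1 0
    omega
  -- larger multi-indices kill
  have hkill : ∀ u : Fin (n + 1) →₀ ℕ, u ≤ top → b.degree < u.degree → hd u F = 0 := by
    intro u hu hdeg
    by_contra hne0
    have := hmax u ((hS u).2 ⟨hu, hne0⟩)
    omega
  refine ⟨b, h1, h2, ?_, ?_⟩
  · refine t_KD t_HC t_LU k p r (n + 1) {i | i ≠ 0} (hd b F) ?_
    intro c hc0 hcq hcT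
    rw [t_HX t_HC]
    by_cases hex : ∃ i, q ≤ b i + c i
    · obtain ⟨i, hi⟩ := hex
      have hd1 : p ∣ (b i + c i).choose (c i) :=
        (t_LU p (Fact.out) r).1 (b i) (c i) (hbq i) (hcq i) hi
      have hd2 : p ∣ ∏ i, (b i + c i).choose (c i) :=
        hd1.trans (Finset.dvd_prod_of_mem _ (Finset.mem_univ i))
      have hz : ((∏ i, (b i + c i).choose (c i) : ℕ) : k) = 0 :=
        (CharP.cast_eq_zero_iff k p _).2 hd2
      rw [hz, C_0, zero_mul]
    · push Not at hex
      have hc00 : c 0 = 0 := hcT 0 (by simp)
      have hz : hd (b + c) F = 0 := by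
        apply hkill
        · intro i
          rw [Finsupp.add_apply]
          by_cases hi : i = 0
          · subst hi
            rw [hb0, hc00]
            simp
          · rw [htopi i hi]
            have := hex i
            omega
        · rw [map_add]
          have : c.degree ≠ 0 := fun h => hc0 ((Finsupp.degree_eq_zero_iff c).1 h)
          omega
      rw [hz, mul_zero]
  · rw [MX_hd_mul]
    rw [Finset.sum_eq_single (top - b, b)]
    · rw [MX_hd_monomial_self, one_mul]
    · rintro ⟨u, v⟩ huv hne0
      rw [Finset.HasAntidiagonal.mem_antidiagonal] at huv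
      simp only at huv ⊢
      by_cases hu : u ≤ top - b
      · have hv : v ≤ top := by rw [← huv]; exact le_add_self
        have hz : hd v F = 0 := by
          apply hkill v hv
          have hudeg : u.degree < (top - b).degree := by
            rcases eq_or_ne u (top - b) with h | h
            · exfalso
              apply hne0
              have h5 : (top - b) + v = (top - b) + b := by
                rw [← h, huv, h, tsub_add_cancel_of_le h1]
              rw [h, add_left_cancel h5]
            · have h6 : u + (top - b - u) = top - b := add_tsub_cancel_of_le hu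
              have h7 : u.degree + (top - b - u).degree = (top - b).degree := by
                rw [← map_add, h6]
              have h8 : (top - b - u).degree ≠ 0 := by
                intro h9
                rw [Finsupp.degree_eq_zero_iff] at h9
                rw [h9, add_zero] at h6
                exact h h6
              omega
          have h10 : u.degree + v.degree = top.degree := by rw [← map_add, huv]
          have h11 : (top - b).degree + b.degree = top.degree := by
            rw [← map_add, tsub_add_cancel_of_le h1]
          omega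
        rw [hz, mul_zero]
      · rw [MX_hd_monomial_zero u _ hu, zero_mul]
    · intro h
      exfalso
      apply h
      rw [Finset.HasAntidiagonal.mem_antidiagonal]
      exact tsub_add_cancel_of_le h1

end Pool.Agent.U334.CQ
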