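import Pool.Agent.U334.CQ.Stm
import Pool.Agent.H580C.CH.T_HC
import Pool.Agent.H580C.CH.T_HM
import Pool.Agent.H580C.CH.T_LU
import Pool.Agent.H580C.CH.T_TN

/-!
Project CQ, package OL: structure and order of the top Hasse derivative.
-/

set_option autoImplicit false

universe u

namespace Pool.Agent.U334.CQ

open MvPolynomial Pool.Agent.Chud Pool.Agent.H580C

/-- Lucas: `C(s + q - 1, q - 1)` is one modulo `p` if `q ∣ s` and zero otherwise. -/
theorem OL_lucas (k : Type u) [Field k] (p r : ℕ) [hp : Fact p.Prime] [CharP k p] (s : ℕ) :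
    (((s + (p ^ r - 1)).choose (p ^ r - 1) : ℕ) : k) = if p ^ r ∣ s then 1 else 0 := by
  have hq : 0 < p ^ r := pow_pos hp.out.pos r
  have h := LU_lucas p hp.out r (s + (p ^ r - 1)) (p ^ r - 1)
  have hk : (((s + (p ^ r - 1)).choose (p ^ r - 1) : ℕ) : k) =
      ((((s + (p ^ r - 1)) / p ^ r).choose ((p ^ r - 1) / p ^ r) *
        ((s + (p ^ r - 1)) % p ^ r).choose ((p ^ r - 1) % p ^ r) : ℕ) : k) := by
    rw [CharP.natCast_eq_natCast' k p]
    have h' : (((s + (p ^ r - 1)).choose (p ^ r - 1) : ℕ) : ℤ) ≡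
      ((((s + (p ^ r - 1)) / p ^ r).choose ((p ^ r - 1) / p ^ r) *
        ((s + (p ^ r - 1)) % p ^ r).choose ((p ^ r - 1) % p ^ r) : ℕ) : ℤ) [ZMOD p] := by
      rw [Nat.cast_mul]
      exact h
    exact (Int.natCast_modEq_iff).1 h'
  rw [hk, Nat.div_eq_of_lt (by omega : p ^ r - 1 < p ^ r), Nat.choose_zero_right, one_mul,
    Nat.mod_eq_of_lt (by omega : p ^ r - 1 < p ^ r)]
  split_ifs with hd
  · obtain ⟨c, rfl⟩ := hd
    rw [Nat.mul_add_mod, Nat.mod_eq_of_lt (by omega : p ^ r - 1 < p ^ r), Nat.choose_self,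
      Nat.cast_one]
  · rw [Nat.choose_eq_zero_of_lt, Nat.cast_zero]
    have h1 : s % p ^ r ≠ 0 := fun h0 => hd (Nat.dvd_of_mod_eq_zero h0)
    have h2 := Nat.mod_lt s hq
    have h3 : (s + (p ^ r - 1)) % p ^ r = s % p ^ r - 1 := by
      have h4 : s + (p ^ r - 1) = p ^ r * (s / p ^ r + 1) + (s % p ^ r - 1) := by
        have h5 := Nat.div_add_mod s (p ^ r)
        rw [mul_add, mul_one]
        omega
      rw [h4, Nat.mul_add_mod, Nat.mod_eq_of_lt (by omega)]
    rw [h3]
    omega

theorem OL_topI (n c : ℕ) (i : Fin (n + 1)) : topI n c i = if i = 0 then 0 else c := rfl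

theorem OL_degree (n c : ℕ) (i : Fin (n + 1)) (hi : i ≠ 0) :
    ((topI n c).erase i).degree = (n - 1) * c := by
  have h1 : (topI n c).degree = n * c := by
    rw [Finsupp.degree_eq_sum, Fin.sum_univ_succ]
    simp [OL_topI, Fin.succ_ne_zero]
  have h2 : (topI n c).erase i + Finsupp.single i c = topI n c := by
    have := Finsupp.erase_add_single i (topI n c)
    rwa [OL_topI, if_neg hi] at this
  have h3 : ((topI n c).erase i).degree + c = n * c := by
    rw [← h1, ← h2, map_add, Finsupp.degree_single]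
    congr 1
    rw [h2]
  obtain ⟨n', rfl⟩ : ∃ n', n = n' + 1 := by
    refine ⟨n - 1, ?_⟩
    have : 0 < n := by
      by_contra h0
      have h1 := i.isLt
      exact hi (Fin.ext (by simp only [Fin.val_zero]; omega))
    omega
  rw [Nat.add_sub_cancel]
  rw [add_mul, one_mul] at h3
  omega

/-- a nonvanishing coefficient of the top derivative without the direction `i` -/
theorem OL_key (k : Type u) [Field k] (p r n D : ℕ) [hp : Fact p.Prime] [CharP k p]
    (F : MvPolynomial (Fin (n + 1)) k) (hF : F.IsHomogeneous D) (hD : p ^ r ∣ D + n)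
    (hd0 : DvdE (p ^ r) {0} F) (i : Fin (n + 1)) (hi : i ≠ 0) (m : Fin (n + 1) →₀ ℕ)
    (hm : coeff m (hd ((topI n (p ^ r - 1)).erase i) F) ≠ 0) : p ^ r ∣ m i + 1 := by
  have hq : 0 < p ^ r := pow_pos hp.out.pos r
  rw [t_HC] at hm
  have h1 := left_ne_zero_of_mul hm
  have h2 := right_ne_zero_of_mul hm
  have h3 := hF h2
  have h4 : (m + (topI n (p ^ r - 1)).erase i).degree = D := by
    rw [Finsupp.degree_eq_weight_one]
    exact h3
  rw [map_add, OL_degree n _ i hi] at h4
  -- all the entries other than `i` are divisible by `q`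
  have h5 : ∀ j, j ≠ i → p ^ r ∣ m j := by
    intro j hj
    by_cases hj0 : j = 0
    · subst hj0
      have h6 := hd0 _ (mem_support_iff.2 h2) 0 (Set.mem_singleton _)
      rw [Finsupp.add_apply, Finsupp.erase_ne hj, OL_topI, if_pos rfl, add_zero] at h6
      exact h6
    · rw [Nat.cast_prod, Finset.prod_ne_zero_iff] at h1
      have h6 := h1 j (Finset.mem_univ j)
      rw [Finsupp.erase_ne hj, OL_topI, if_neg hj0, OL_lucas] at h6
      by_contra h7
      rw [if_neg h7] at h6
      exact h6 rfl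
  have h6 : m.degree = m i + ∑ j ∈ Finset.univ.erase i, m j := by
    rw [Finsupp.degree_eq_sum, Finset.add_sum_erase _ _ (Finset.mem_univ i)]
  have h7 : p ^ r ∣ ∑ j ∈ Finset.univ.erase i, m j :=
    Finset.dvd_sum fun j hj => h5 j (Finset.ne_of_mem_erase hj)
  obtain ⟨n', rfl⟩ : ∃ n', n = n' + 1 := by
    refine ⟨n - 1, ?_⟩
    have : 0 < n := by
      by_contra h0
      have h1 := i.isLt
      exact hi (Fin.ext (by simp only [Fin.val_zero]; omega))
    omega
  rw [Nat.add_sub_cancel] at h4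
  generalize (∑ j ∈ Finset.univ.erase i, m j) = M at *
  obtain ⟨c, hc⟩ := hD
  obtain ⟨M', hM'⟩ := h7
  have h8 : n' * (p ^ r - 1) + n' = p ^ r * n' := by
    obtain ⟨x, hx⟩ : ∃ x, p ^ r = x + 1 := ⟨p ^ r - 1, by omega⟩
    rw [hx, Nat.add_sub_cancel]
    ring
  have h9 : (m i + 1) + p ^ r * (M' + n') = p ^ r * c := by
    rw [mul_add, ← hM', ← hc, ← h4, h6, ← h8]
    ring
  exact (Nat.dvd_add_left (dvd_mul_right _ _)).1 (h9 ▸ dvd_mul_right _ _)

theorem OL_mul (k : Type u) [Field k] (p r n D : ℕ) [hp : Fact p.Prime] [CharP k p]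
    (F : MvPolynomial (Fin (n + 1)) k) (hF : F.IsHomogeneous D) (hD : p ^ r ∣ D + n)
    (hd0 : DvdE (p ^ r) {0} F) (i : Fin (n + 1)) (hi : i ≠ 0) :
    (X i : MvPolynomial (Fin (n + 1)) k) ^ (p ^ r - 1) * hd (topI n (p ^ r - 1)) F =
      hd ((topI n (p ^ r - 1)).erase i) F := by
  have hq : 0 < p ^ r := pow_pos hp.out.pos r
  ext m
  rw [X_pow_eq_monomial, coeff_monomial_mul']
  by_cases hle : Finsupp.single i (p ^ r - 1) ≤ m
  · rw [if_pos hle, one_mul]
    have hle' : p ^ r - 1 ≤ m i := by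
      have := hle i
      rwa [Finsupp.single_eq_same] at this
    set m' := m - Finsupp.single i (p ^ r - 1) with hm'
    have hm1 : m = m' + Finsupp.single i (p ^ r - 1) := (tsub_add_cancel_of_le hle).symm
    have hm2 : m' + topI n (p ^ r - 1) = m + (topI n (p ^ r - 1)).erase i := by
      have h2 : (topI n (p ^ r - 1)).erase i + Finsupp.single i (p ^ r - 1) =
          topI n (p ^ r - 1) := by
        have := Finsupp.erase_add_single i (topI n (p ^ r - 1))
        rwa [OL_topI, if_neg hi] at this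
      rw [hm1, ← h2, h2, ← h2, Finsupp.erase_add, Finsupp.erase_single, add_zero]
      rw [Finsupp.erase_idem] 
      abel
    have hprod : ((∏ j, (m' j + topI n (p ^ r - 1) j).choose (topI n (p ^ r - 1) j) : ℕ) : k) =
        (if p ^ r ∣ m' i then 1 else 0) *
        ((∏ j, (m j + (topI n (p ^ r - 1)).erase i j).choose
          ((topI n (p ^ r - 1)).erase i j) : ℕ) : k) := by
      rw [← Finset.mul_prod_erase _ _ (Finset.mem_univ i),
        ← Finset.mul_prod_erase _ (fun j => (m j + (topI n (p ^ r - 1)).erase i j).choose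
          ((topI n (p ^ r - 1)).erase i j)) (Finset.mem_univ i)]
      rw [Finsupp.erase_same, Nat.choose_zero_right, one_mul, Nat.cast_mul, OL_topI, if_neg hi,
        OL_lucas]
      congr 2
      refine Finset.prod_congr rfl fun j hj => ?_
      have hj' := Finset.ne_of_mem_erase hj
      rw [Finsupp.erase_ne hj', hm1, Finsupp.add_apply, Finsupp.single_eq_of_ne hj', add_zero]
    have hL : coeff m' (hd (topI n (p ^ r - 1)) F) = (if p ^ r ∣ m' i then 1 else 0) *
        coeff m (hd ((topI n (p ^ r - 1)).erase i) F) := by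
      rw [t_HC, t_HC, hprod, hm2, mul_assoc]
    rw [hL]
    by_cases h0 : coeff m (hd ((topI n (p ^ r - 1)).erase i) F) = 0
    · rw [h0, mul_zero]
    · have h1 := OL_key k p r n D F hF hD hd0 i hi m h0
      rw [if_pos, one_mul]
      have h2 : m i = m' i + (p ^ r - 1) := by
        rw [hm1, Finsupp.add_apply, Finsupp.single_eq_same]
      rw [h2, add_assoc, Nat.sub_add_cancel hq] at h1
      exact (Nat.dvd_add_left (dvd_refl _)).1 h1
  · rw [if_neg hle]
    by_contra h0
    have h1 := OL_key k p r n D F hF hD hd0 i hi m (Ne.symm h0)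
    apply hle
    rw [Finsupp.single_le_iff]
    have := Nat.le_of_dvd (Nat.succ_pos _) h1
    omega

/-- **Package OL**. -/
theorem t_OL : S_OL.{u} := by
  intro k _ p r n D hp _ F hF hD hd0
  have hq : 0 < p ^ r := pow_pos hp.out.pos r
  refine ⟨?_, ?_⟩
  · intro m hm i _
    rw [mem_support_iff, t_HC] at hm
    have h1 := left_ne_zero_of_mul hm
    have h2 := right_ne_zero_of_mul hm
    by_cases hi : i = 0
    · subst hi
      have h6 := hd0 _ (mem_support_iff.2 h2) 0 (Set.mem_singleton _)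
      rwa [Finsupp.add_apply, OL_topI, if_pos rfl, add_zero] at h6
    · rw [Nat.cast_prod, Finset.prod_ne_zero_iff] at h1
      have h6 := h1 i (Finset.mem_univ i)
      rw [OL_topI, if_neg hi, OL_lucas] at h6
      by_contra h7
      rw [if_neg h7] at h6
      exact h6 rfl
  · intro m w i hi hw hFw
    by_cases hH : hd (topI n (p ^ r - 1)) F = 0
    · rw [hH]
      exact Ideal.zero_mem _
    have h1 := t_HM k (n + 1) ((topI n (p ^ r - 1)).erase i) w _ F hFw
    rw [OL_degree n _ i hi, Nat.add_sub_cancel, ← OL_mul k p r n D F hF hD hd0 i hi] at h1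
    have hX : (X i : MvPolynomial (Fin (n + 1)) k) ≠ 0 := X_ne_zero i
    have hXp : (X i : MvPolynomial (Fin (n + 1)) k) ^ (p ^ r - 1) ≠ 0 := pow_ne_zero _ hX
    rw [mem_mI_pow_iff w (mul_ne_zero hXp hH), mu_mul w hXp hH,
      TN_mu_eq_zero w hXp (by rw [map_pow, eval_X]; exact pow_ne_zero _ hw), zero_add] at h1
    exact (mem_mI_pow_iff w hH m).2 h1

end Pool.Agent.U334.CQ
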