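import Pool.Agent.H580C.CH.T_HV
import Pool.Agent.H580C.CH.T_HC
import Pool.Agent.H580C.CH.T_TR
import Pool.Agent.U334.CQ.Stm

/-!
Project CQ, package RK: forms with given orders specialise (helper908).
-/

set_option autoImplicit false

universe u

namespace Pool.Agent.U334.CQ

open MvPolynomial Pool.Agent.Chud Pool.Agent.H580C

/-- a matrix over a field with trivial kernel has a nonsingular maximal minor -/
theorem RK_minor {k : Type*} [Field k] {R C : Type*} [Fintype R] [Fintype C] [DecidableEq C]
    (N : Matrix R C k) (h : ∀ y : C → k, N.mulVec y = 0 → y = 0) :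
    ∃ f : C → R, (N.submatrix f id).det ≠ 0 := by
  classical
  have hinj : Function.Injective N.mulVecLin := by
    rw [← LinearMap.ker_eq_bot, LinearMap.ker_eq_bot']
    intro y hy
    exact h y hy
  have hrank : N.rank = Fintype.card C := by
    rw [Matrix.rank, LinearMap.finrank_range_of_inj hinj, Module.finrank_fintype_fun_eq_card]
  have hspan : Submodule.span k (Set.range N.row) = ⊤ := by
    apply Submodule.eq_top_of_finrank_eq
    rw [← Matrix.rank_eq_finrank_span_row, hrank, Module.finrank_fintype_fun_eq_card]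
  obtain ⟨κ, a, ha, hsp, hli⟩ := exists_linearIndependent' k N.row
  rw [hspan] at hsp
  let B : Module.Basis κ k (C → k) := Module.Basis.mk hli (by rw [hsp])
  have hfin : Finite κ := Finite.of_injective a ha
  have : Fintype κ := Fintype.ofFinite κ
  have hcard : Fintype.card C = Fintype.card κ := by
    rw [← Module.finrank_eq_card_basis B, Module.finrank_fintype_fun_eq_card]
  let e : C ≃ κ := Fintype.equivOfCardEq hcard
  refine ⟨fun c => a (e c), ?_⟩
  have hli2 : LinearIndependent k (fun c => N.row (a (e c))) := hli.comp e e.injective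
  have h3 : LinearIndependent k (N.submatrix (fun c => a (e c)) id).row := hli2
  rw [Matrix.linearIndependent_rows_iff_isUnit] at h3
  rw [Matrix.isUnit_iff_isUnit_det] at h3
  exact h3.ne_zero

/-- kernels specialise -/
theorem RK_spec {K : Type*} [Field K] {k : Type*} [Field k] (A : Subring K) (φ : A →+* k)
    {R C : Type*} [Fintype R] [Fintype C] (M : Matrix R C A) (x : C → K) (hx : x ≠ 0)
    (hM : (M.map (fun a : A => (a : K))).mulVec x = 0) :
    ∃ y : C → k, y ≠ 0 ∧ (M.map φ).mulVec y = 0 := by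
  classical
  by_contra hcon
  push Not at hcon
  obtain ⟨f, hf⟩ := RK_minor (M.map φ) (fun y hy => by
    by_contra h0
    exact hcon y h0 hy)
  have h1 : (M.submatrix f id).det ≠ 0 := by
    intro h0
    apply hf
    have : (M.map φ).submatrix f id = φ.mapMatrix (M.submatrix f id) := rfl
    rw [this, ← RingHom.map_det, h0, map_zero]
  have h2 : ((M.map (fun a : A => (a : K))).submatrix f id).det ≠ 0 := by
    have : (M.map (fun a : A => (a : K))).submatrix f id = A.subtype.mapMatrix (M.submatrix f id) :=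
      rfl
    rw [this, ← RingHom.map_det]
    intro h0
    apply h1
    exact Subtype.ext h0
  apply hx
  have h3 : ((M.map (fun a : A => (a : K))).submatrix f id).mulVec x = 0 := by
    ext c
    have := congrFun hM (f c)
    exact this
  exact Matrix.eq_zero_of_mulVec_eq_zero h2 h3

theorem RK_iff {A : Type*} [CommRing A] (L : Type u) [Field L] (ι : A →+* L) (n d m : ℕ)
    (v : Fin (n + 1) → A) (G : MvPolynomial (Fin (n + 1)) L) (hG : G.IsHomogeneous d) :
    G ∈ mI (fun i => ι (v i)) ^ m ↔ ∀ b ∈ bx (n + 1) m,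
      ∑ m' ∈ (Finset.univ : Finset (Fin (n + 1))).finsuppAntidiag d,
        ι (((∏ i, (m' i).choose (b i) : ℕ) : A) * ∏ i, v i ^ (m' i - b i)) * coeff m' G = 0 := by
  rw [(t_HV L (n + 1) (fun i => ι (v i)) G).2 m]
  have key : ∀ b : Fin (n + 1) →₀ ℕ, eval (fun i => ι (v i)) (hd b G) =
      ∑ m' ∈ (Finset.univ : Finset (Fin (n + 1))).finsuppAntidiag d,
        ι (((∏ i, (m' i).choose (b i) : ℕ) : A) * ∏ i, v i ^ (m' i - b i)) * coeff m' G := by
    intro b
    rw [TR_eval_hd t_HC L (n + 1) b (fun i => ι (v i)) G d hG]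
    refine Finset.sum_congr rfl fun m' _ => ?_
    rw [map_mul, map_natCast, map_prod]
    simp only [map_pow]
  constructor
  · intro h b hb
    rw [← key]
    exact h b ((TR_mem_bx _ _).1 hb)
  · intro h b hb
    rw [key]
    exact h b ((TR_mem_bx _ _).2 hb)

/-- **Package RK**: forms with given orders specialise. -/
theorem t_RK : S_RK.{u} := by
  classical
  intro K _ k _ A φ n d m Z F hF0 hF hFv
  set S : Finset (Fin (n + 1) →₀ ℕ) := (Finset.univ : Finset (Fin (n + 1))).finsuppAntidiag d
    with hS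
  let M : Matrix (Z × bx (n + 1) m) S A := fun r c =>
    ((∏ i, (c.1 i).choose (r.2.1 i) : ℕ) : A) * ∏ i, r.1.1 i ^ (c.1 i - r.2.1 i)
  have hx0 : (fun c : S => coeff c.1 F) ≠ 0 := by
    intro h0
    apply hF0
    ext c
    rw [coeff_zero]
    by_cases hc : c.degree = d
    · exact congrFun h0 ⟨c, (TR_mem_anti _ _).2 hc⟩
    · exact hF.coeff_eq_zero hc
  have hM : (M.map (fun a : A => (a : K))).mulVec (fun c : S => coeff c.1 F) = 0 := by
    ext r
    have h1 := (RK_iff K A.subtype n d m r.1.1 F hF).1 (hFv r.1.1 r.1.2) r.2.1 r.2.2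
    rw [← hS, ← Finset.sum_coe_sort] at h1
    exact h1
  obtain ⟨y, hy0, hy⟩ := RK_spec A φ M _ hx0 hM
  let G : MvPolynomial (Fin (n + 1)) k := ∑ c : S, monomial c.1 (y c)
  have hco : ∀ c : S, coeff c.1 G = y c := by
    intro c
    simp only [G, coeff_sum, coeff_monomial]
    rw [Finset.sum_eq_single c]
    · rw [if_pos rfl]
    · intro b _ hb
      rw [if_neg]
      intro h
      exact hb (Subtype.ext h)
    · intro h
      exact absurd (Finset.mem_univ c) h
  have hG : G.IsHomogeneous d := by
    refine IsHomogeneous.sum _ _ _ fun c _ => ?_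
    refine isHomogeneous_monomial _ ?_
    exact (TR_mem_anti _ _).1 c.2
  refine ⟨G, ?_, hG, ?_⟩
  · intro h0
    apply hy0
    ext c
    rw [← hco, h0, coeff_zero]
    rfl
  · intro v hv
    rw [RK_iff k φ n d m v G hG]
    intro b hb
    have h1 := congrFun hy (⟨v, hv⟩, ⟨b, hb⟩)
    rw [← hS, ← Finset.sum_coe_sort]
    have h2 : ((M.map φ).mulVec y) (⟨v, hv⟩, ⟨b, hb⟩) = ∑ c : S,
        φ (((∏ i, (c.1 i).choose (b i) : ℕ) : A) * ∏ i, v i ^ (c.1 i - b i)) * y c := rfl
    rw [h2] at h1
    refine Eq.trans (Finset.sum_congr rfl fun c _ => ?_) h1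
    rw [hco]

end Pool.Agent.U334.CQ
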