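import Pool.Agent.U334.CQ.Stm
import Pool.Agent.H580C.CH.T_DL
import Pool.Agent.H580C.CH.T_LS
import Pool.Agent.H580C.CH.T_RT
import Pool.Agent.H580C.CH.T_ML

/-!
Project CQ, package SL: the strict lemma in characteristic `p`.
-/

set_option autoImplicit false

universe u

namespace Pool.Agent.U334.CQ

open MvPolynomial Pool.Agent.Chud Pool.Agent.H580C

/-- forms all of whose derivatives vanish are `p`-th powers -/
theorem SL_root {k : Type u} [Field k] [IsAlgClosed k] {p n d : ℕ} [Fact p.Prime] [CharP k p]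
    {F : MvPolynomial (Fin (n + 1)) k} (hF0 : F ≠ 0) (hF : F.IsHomogeneous d)
    (hpd : ∀ i, pderiv i F = 0) :
    ∃ (d' : ℕ) (G : MvPolynomial (Fin (n + 1)) k), G.IsHomogeneous d' ∧ d = p * d' ∧
      F = G ^ p := by
  have hdvd : DvdE (p ^ 1) Set.univ F := by
    intro m hm i _
    rw [pow_one]
    rcases Nat.eq_zero_or_pos (m i) with h0 | h0
    · rw [h0]; exact dvd_zero _
    set m' : Fin (n + 1) →₀ ℕ := m - Finsupp.single i 1 with hm'
    have h1 := coeff_pderiv (i := i) F m'
    have h2 : m' + Finsupp.single i 1 = m := by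
      rw [hm']
      ext j
      simp only [Finsupp.coe_add, Finsupp.coe_tsub, Pi.add_apply, Pi.sub_apply]
      by_cases hj : j = i
      · subst hj; rw [Finsupp.single_eq_same]; omega
      · rw [Finsupp.single_eq_of_ne hj]; omega
    rw [h2, hpd, coeff_zero] at h1
    have h3 : coeff m F ≠ 0 := MvPolynomial.mem_support_iff.1 hm
    have h4 : ((m' i : ℕ) : k) + 1 = 0 := by
      rcases mul_eq_zero.1 h1.symm with h5 | h5
      · exact absurd h5 h3
      · exact h5
    have h5 : ((m i : ℕ) : k) = 0 := by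
      have e : m i = m' i + 1 := by
        rw [hm']
        simp only [Finsupp.coe_tsub, Pi.sub_apply, Finsupp.single_eq_same]
        omega
      rw [e, Nat.cast_add, Nat.cast_one]
      exact h4
    exact (CharP.cast_eq_zero_iff k p (m i)).1 h5
  obtain ⟨c, d', G, -, hGh, hd, hG, hc⟩ := t_RT k p 1 (n + 1) d 0 F hF0 hF
    (fun m hm i _ => hdvd m hm i trivial)
  refine ⟨d', G, hGh, ?_, ?_⟩
  · rw [hc hdvd, zero_add, pow_one] at hd
    exact hd
  · rw [hc hdvd, pow_zero, one_mul, pow_one] at hG
    exact hG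

theorem mem_mI_one {k : Type u} [Field k] {σ : Type*} (v : σ → k) (F : MvPolynomial σ k) :
    F ∈ mI v ^ 1 ↔ eval v F = 0 := by
  rw [pow_one]
  unfold mI
  rw [RingHom.mem_ker]

/-- the case of order one -/
theorem SL_one {k : Type u} [Field k] [IsAlgClosed k] {p n a : ℕ} [Fact p.Prime] [CharP k p]
    {v : Fin (n + 1) → k} {Z : Set (Fin (n + 1) → k)} {h G : MvPolynomial (Fin (n + 1)) k}
    (ha : 2 ≤ a) (hlow : LowT (insert v Z) 1 a) (hh : h.IsHomogeneous (a - 1))
    (hhv : eval v h ≠ 0) (hhZ : ∀ w ∈ Z, eval w h = 0) (hG : G.IsHomogeneous a)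
    (hGZ : ∀ w ∈ Z, G ∈ mI w ^ 2) (hGv : eval v G = 0) {i₀ : Fin (n + 1)}
    (hi₀ : pderiv i₀ G ≠ 0) : False := by
  have hp : p.Prime := Fact.out
  have hh0 : h ≠ 0 := by
    rintro rfl
    exact hhv (map_zero _)
  -- the derivatives of `G` are multiples of `h`
  set c : Fin (n + 1) → k := fun i => eval v (pderiv i G) / eval v h with hc
  have hD : ∀ i, pderiv i G = C (c i) * h := by
    intro i
    by_contra hne
    have hne' : pderiv i G - C (c i) * h ≠ 0 := sub_ne_zero.2 hne
    have h1 : (pderiv i G - C (c i) * h).IsHomogeneous (a - 1) := by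
      refine IsHomogeneous.sub (hG.pderiv (i := i)) ?_
      have := (isHomogeneous_C (Fin (n + 1)) (c i)).mul hh
      rwa [zero_add] at this
    have h2 := hlow _ _ hne' h1 (by
      intro w hw
      rw [mem_mI_one, map_sub, map_mul, eval_C]
      rcases hw with hw | hw
      · rw [hw, hc]
        simp only
        rw [div_mul_cancel₀ _ hhv, sub_self]
      · have h3 := deriv_mem w (pderiv i) 1 G (hGZ w hw)
        rw [mem_mI_one] at h3
        rw [h3, hhZ w hw, mul_zero, sub_zero])
    omega
  -- Euler's identity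
  set l : MvPolynomial (Fin (n + 1)) k := ∑ i, C (c i) * X i with hl
  have hE : l * h = a • G := by
    rw [← hG.sum_X_mul_pderiv, hl, Finset.sum_mul]
    refine Finset.sum_congr rfl fun i _ => ?_
    rw [hD i]
    ring
  have hci : c i₀ ≠ 0 := by
    intro h0
    apply hi₀
    rw [hD i₀, h0, C_0, zero_mul]
  have hdl : ∀ i, pderiv i l = C (c i) := by
    intro i
    rw [hl, map_sum, Finset.sum_eq_single i]
    · rw [pderiv_C_mul, pderiv_X_self, mul_one]
    · intro j _ hj
      rw [pderiv_C_mul, pderiv_X_of_ne hj, mul_zero]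
    · intro h2
      exact absurd (Finset.mem_univ i) h2
  have hl0 : l ≠ 0 := by
    intro h0
    have h1 := hdl i₀
    rw [h0, map_zero] at h1
    exact hci (C_injective _ _ (by rw [← h1, C_0]))
  have hlh : l.IsHomogeneous 1 := by
    rw [hl]
    apply MvPolynomial.IsHomogeneous.sum
    intro i _
    have := (isHomogeneous_C (Fin (n + 1)) (c i)).mul (isHomogeneous_X k i)
    simpa using this
  have hlv : eval v l = 0 := by
    have h1 := congrArg (eval v) hE
    rw [map_mul, map_nsmul, hGv, smul_zero] at h1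
    exact (mul_eq_zero.1 h1).resolve_right hhv
  -- derive once more
  have hF : ∀ i, l * pderiv i h = (a - 1) • (C (c i) * h) := by
    intro i
    have h1 := congrArg (pderiv i) hE
    rw [pderiv_mul, hdl, map_nsmul, hD i] at h1
    have h2 : a • (C (c i) * h) = (a - 1) • (C (c i) * h) + C (c i) * h := by
      rw [← succ_nsmul]
      congr 1
      omega
    rw [h2] at h1
    linear_combination h1
  have ha1 : ((a - 1 : ℕ) : k) = 0 := by
    have h1 := congrArg (eval v) (hF i₀)
    rw [map_mul, hlv, zero_mul, map_nsmul, map_mul, eval_C, nsmul_eq_mul] at h1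
    exact (mul_eq_zero.1 h1.symm).resolve_right (mul_ne_zero hci hhv)
  have hdh : ∀ i, pderiv i h = 0 := by
    intro i
    have h1 := hF i
    rw [nsmul_eq_mul, ← map_natCast (C : k →+* MvPolynomial (Fin (n + 1)) k), ha1, C_0,
      zero_mul] at h1
    exact (mul_eq_zero.1 h1).resolve_left hl0
  obtain ⟨d', h₁, h₁h, hd', hh₁⟩ := SL_root (p := p) hh0 hh hdh
  have hh₁0 : h₁ ≠ 0 := by
    rintro rfl
    exact hh0 (by rw [hh₁, zero_pow hp.ne_zero])
  have h5 := hlow (h₁ * l) (d' + 1) (mul_ne_zero hh₁0 hl0) (h₁h.mul hlh) (by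
    intro w hw
    rw [mem_mI_one, map_mul]
    rcases hw with hw | hw
    · rw [hw, hlv, mul_zero]
    · have h6 := hhZ w hw
      rw [hh₁, map_pow] at h6
      rw [pow_eq_zero_iff hp.ne_zero |>.1 h6, zero_mul])
  have h6 : 2 * d' ≤ p * d' := Nat.mul_le_mul_right _ hp.two_le
  omega

theorem t_SL : S_SL.{u} := by
  intro k _ _ p n a j _ _ v Z h G ha hj hlow hh hhv hhZ hG hGZ hGv
  have hp : p.Prime := Fact.out
  have hp2 : 2 ≤ p := hp.two_le
  have LS : St_LS.{u} := t_LS t_DL
  induction j generalizing G with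
  | zero => omega
  | succ j ih =>
    by_contra hG0
    by_cases hA : ∀ i, pderiv i G = 0
    · obtain ⟨d', G1, hG1h, hd, hG1⟩ := SL_root (p := p) hG0 hG hA
      have hG10 : G1 ≠ 0 := by
        rintro rfl
        exact hG0 (by rw [hG1, zero_pow hp.ne_zero])
      obtain ⟨s, hs1, hs2, hs3⟩ : ∃ s : ℕ, 1 ≤ s ∧ j + 1 ≤ p * s ∧
          ∀ x, j + 1 ≤ p * x → s ≤ x := by
        refine ⟨j / p + 1, Nat.le_add_left _ _, ?_, ?_⟩
        · exact Nat.lt_mul_div_succ j hp.pos
        · intro x hx
          exact (Nat.div_lt_iff_lt_mul hp.pos).2 (by rw [mul_comm]; omega)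
      have hord : ∀ w ∈ insert v Z, G1 ∈ mI w ^ s := by
        intro w hw
        have h1 : G ∈ mI w ^ (j + 1) := by
          rcases hw with hw | hw
          · rw [hw]
            exact hGv
          · exact Ideal.pow_le_pow_right (by omega) (hGZ w hw)
        rw [mem_mI_pow_iff w hG0, hG1, ML_mu_pow w hG10] at h1
        rw [mem_mI_pow_iff w hG10]
        exact hs3 _ h1
      have h2 := LS k (n + 1) 1 a (insert v Z) (Set.insert_nonempty _ _) le_rfl hlow (s - 1)
        G1 d' hG10 hG1h (by
          intro w hw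
          rw [Nat.add_sub_cancel' hs1]
          exact hord w hw)
      have h3 : p * (a - 1 + s) ≤ p * d' := Nat.mul_le_mul_left _ (by omega)
      have h4 : 2 * (a - 1) ≤ p * (a - 1) := Nat.mul_le_mul_right _ hp2
      rw [Nat.mul_add] at h3
      omega
    · push Not at hA
      obtain ⟨i₀, hi₀⟩ := hA
      rcases Nat.eq_zero_or_pos j with hj0 | hj0
      · subst hj0
        refine SL_one (p := p) ha hlow hh hhv hhZ ?_ hGZ ?_ hi₀
        · rwa [show a - 1 + (0 + 1) = a by omega] at hG
        · rw [← mem_mI_one]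
          exact hGv
      · refine hi₀ (ih (pderiv i₀ G) hj0 ?_ ?_ ?_)
        · have := hG.pderiv (i := i₀)
          rwa [show a - 1 + (j + 1) - 1 = a - 1 + j by omega] at this
        · exact fun w hw => deriv_mem w (pderiv i₀) (j + 1) G (hGZ w hw)
        · exact deriv_mem v (pderiv i₀) j G hGv

end Pool.Agent.U334.CQ
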