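import Pool.Agent.H580C.CH.All
import Pool.Agent.U334.CQ.Stm

/-!
Project CQ, package TR: reduction to positive characteristic with two conditions.
-/

set_option autoImplicit false

universe u

namespace Pool.Agent.U334.CQ

open MvPolynomial Filter Topology Pool.Agent.Chud Pool.Agent.H580C

/-- the interpolation identities specialise -/
theorem low_spec {K : Type u} [Field K] {k : Type} [Field k] (A : Subring K) (φ : A →+* k)
    (n t a : ℕ) (Z : Finset (Fin (n + 1) → K)) (m2 : ∀ v ∈ Z, ∀ i, v i ∈ A)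
    (lam : ℕ → (Fin (n + 1) →₀ ℕ) → (Fin (n + 1) → K) → (Fin (n + 1) →₀ ℕ) → K)
    (hlam : ∀ d < a, ∀ m m' : Fin (n + 1) →₀ ℕ, m.degree = d → m'.degree = d →
      ∑ v ∈ Z, ∑ b ∈ bx (n + 1) t,
        lam d m v b * (((∏ i, (m' i).choose (b i) : ℕ) : K) * ∏ i, v i ^ (m' i - b i)) =
      if m = m' then 1 else 0)
    (m1 : ∀ d < a, ∀ m : Fin (n + 1) →₀ ℕ, m.degree = d → ∀ v ∈ Z, ∀ b ∈ bx (n + 1) t,
      lam d m v b ∈ A) (Z' : Set (Fin (n + 1) → k))
    (hZ' : ∀ v (hv : v ∈ Z), (fun i => φ ⟨v i, m2 v hv i⟩) ∈ Z') : LowT Z' t a := by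
  classical
  intro G d' hG0 hG hv
  by_contra hlt
  push Not at hlt
  apply hG0
  ext m
  rw [coeff_zero]
  by_cases hm : m.degree = d'
  swap
  · exact hG.coeff_eq_zero hm
  have key : ∀ m' : Fin (n + 1) →₀ ℕ, m'.degree = d' →
      ∑ v ∈ Z.attach, ∑ b ∈ (bx (n + 1) t).attach,
        φ ⟨lam d' m v.1 b.1, m1 d' hlt m hm v.1 v.2 b.1 b.2⟩ *
          (((∏ i, (m' i).choose (b.1 i) : ℕ) : k) *
            ∏ i, φ ⟨v.1 i, m2 v.1 v.2 i⟩ ^ (m' i - b.1 i)) =
      if m = m' then 1 else 0 := by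
    intro m' hm'
    have h := hlam d' hlt m m' hm hm'
    have hA' : ∑ v ∈ Z.attach, ∑ b ∈ (bx (n + 1) t).attach,
        (⟨lam d' m v.1 b.1, m1 d' hlt m hm v.1 v.2 b.1 b.2⟩ : A) *
          (((∏ i, (m' i).choose (b.1 i) : ℕ) : A) *
            ∏ i, (⟨v.1 i, m2 v.1 v.2 i⟩ : A) ^ (m' i - b.1 i)) =
        if m = m' then 1 else 0 := by
      apply Subtype.ext
      have e1 : ((if m = m' then 1 else 0 : A) : K) = if m = m' then 1 else 0 := by
        split_ifs <;> rfl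
      rw [e1, ← h]
      rw [← Finset.sum_attach Z]
      push_cast
      refine Finset.sum_congr rfl fun v _ => ?_
      rw [← Finset.sum_attach (bx (n + 1) t)]
    have h3 := congrArg φ hA'
    rw [map_sum] at h3
    have e2 : φ (if m = m' then 1 else 0) = if m = m' then 1 else 0 := by
      split_ifs
      · exact map_one φ
      · exact map_zero φ
    rw [e2] at h3
    rw [← h3]
    refine Finset.sum_congr rfl fun v _ => ?_
    rw [map_sum]
    refine Finset.sum_congr rfl fun b _ => ?_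
    rw [map_mul, map_mul, map_natCast, map_prod]
    simp only [map_pow]
  have hsum : coeff m G = ∑ m' ∈ (Finset.univ : Finset (Fin (n + 1))).finsuppAntidiag d',
      (if m = m' then 1 else 0) * coeff m' G := by
    rw [Finset.sum_eq_single m]
    · rw [if_pos rfl, one_mul]
    · intro m' _ hne
      rw [if_neg (Ne.symm hne), zero_mul]
    · intro h
      exact absurd ((TR_mem_anti _ _).2 hm) h
  rw [hsum]
  have h4 : ∀ m' ∈ (Finset.univ : Finset (Fin (n + 1))).finsuppAntidiag d',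
      ((if m = m' then 1 else 0 : k)) * coeff m' G =
      ∑ v ∈ Z.attach, ∑ b ∈ (bx (n + 1) t).attach,
        φ ⟨lam d' m v.1 b.1, m1 d' hlt m hm v.1 v.2 b.1 b.2⟩ *
          ((((∏ i, (m' i).choose (b.1 i) : ℕ) : k) *
            ∏ i, φ ⟨v.1 i, m2 v.1 v.2 i⟩ ^ (m' i - b.1 i)) * coeff m' G) := by
    intro m' hm'
    rw [← key m' ((TR_mem_anti _ _).1 hm'), Finset.sum_mul]
    refine Finset.sum_congr rfl fun v _ => ?_
    rw [Finset.sum_mul]
    refine Finset.sum_congr rfl fun b _ => ?_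
    rw [mul_assoc]
  rw [Finset.sum_congr rfl h4, Finset.sum_comm]
  refine Finset.sum_eq_zero fun v _ => ?_
  rw [Finset.sum_comm]
  refine Finset.sum_eq_zero fun b _ => ?_
  rw [← Finset.mul_sum]
  have h5 := TR_eval_hd t_HC k (n + 1) b.1 (fun i => φ ⟨v.1 i, m2 v.1 v.2 i⟩) G d' hG
  rw [← h5]
  have h6 := ((t_HV k (n + 1) (fun i => φ ⟨v.1 i, m2 v.1 v.2 i⟩) G).2 t).1
    (hv _ (hZ' v.1 v.2)) b.1 ((TR_mem_bx _ _).1 b.2)
  rw [h6, mul_zero]

theorem t_TR2 : S_TR.{u} := by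
  classical
  intro K _ _ n t₁ a₁ t₂ a₂ Z hZ hL1 hL2
  choose! lam1 hlam1 using p_TI K n t₁ a₁ Z hL1
  choose! lam2 hlam2 using p_TI K n t₂ a₂ Z hL2
  set T : Finset K := ((Finset.range a₁).biUnion fun d =>
      ((Finset.univ : Finset (Fin (n + 1))).finsuppAntidiag d).biUnion fun m =>
        Z.biUnion fun v => (bx (n + 1) t₁).image fun b => lam1 d m v b) ∪
      (((Finset.range a₂).biUnion fun d =>
      ((Finset.univ : Finset (Fin (n + 1))).finsuppAntidiag d).biUnion fun m =>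
        Z.biUnion fun v => (bx (n + 1) t₂).image fun b => lam2 d m v b) ∪
      ((Z.biUnion fun v => (Finset.univ : Finset (Fin (n + 1))).image fun i => v i) ∪
      (Z.biUnion fun v => (Finset.univ : Finset (Fin (n + 1))).image fun i => (v i)⁻¹))) with hT
  obtain ⟨p, hp, k, ik, ia, ic, -, ⟨φ⟩⟩ := t_RD K T 0
  set A : Subring K := (Algebra.adjoin ℤ (T : Set K)).toSubring with hA
  have hTA : ∀ x ∈ T, x ∈ A := fun x hx => Algebra.subset_adjoin hx
  set ψ : A →+* k := φ.comp (A.subtype.codRestrict (Algebra.adjoin ℤ (T : Set K))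
    (fun x => x.2)) with hψ
  have m1 : ∀ d < a₁, ∀ m : Fin (n + 1) →₀ ℕ, m.degree = d → ∀ v ∈ Z, ∀ b ∈ bx (n + 1) t₁,
      lam1 d m v b ∈ A := by
    intro d hd m hm v hv b hb
    apply hTA
    rw [hT]
    refine Finset.mem_union_left _ (Finset.mem_biUnion.2 ⟨d, Finset.mem_range.2 hd, ?_⟩)
    refine Finset.mem_biUnion.2 ⟨m, (TR_mem_anti _ _).2 hm, ?_⟩
    exact Finset.mem_biUnion.2 ⟨v, hv, Finset.mem_image.2 ⟨b, hb, rfl⟩⟩
  have m1' : ∀ d < a₂, ∀ m : Fin (n + 1) →₀ ℕ, m.degree = d → ∀ v ∈ Z, ∀ b ∈ bx (n + 1) t₂,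
      lam2 d m v b ∈ A := by
    intro d hd m hm v hv b hb
    apply hTA
    rw [hT]
    refine Finset.mem_union_right _ (Finset.mem_union_left _
      (Finset.mem_biUnion.2 ⟨d, Finset.mem_range.2 hd, ?_⟩))
    refine Finset.mem_biUnion.2 ⟨m, (TR_mem_anti _ _).2 hm, ?_⟩
    exact Finset.mem_biUnion.2 ⟨v, hv, Finset.mem_image.2 ⟨b, hb, rfl⟩⟩
  have m2 : ∀ v ∈ Z, ∀ i, v i ∈ A := by
    intro v hv i
    apply hTA
    rw [hT]
    refine Finset.mem_union_right _ (Finset.mem_union_right _ (Finset.mem_union_left _ ?_))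
    exact Finset.mem_biUnion.2 ⟨v, hv, Finset.mem_image.2 ⟨i, Finset.mem_univ _, rfl⟩⟩
  have m3 : ∀ v ∈ Z, ∀ i, (v i)⁻¹ ∈ A := by
    intro v hv i
    apply hTA
    rw [hT]
    refine Finset.mem_union_right _ (Finset.mem_union_right _ (Finset.mem_union_right _ ?_))
    exact Finset.mem_biUnion.2 ⟨v, hv, Finset.mem_image.2 ⟨i, Finset.mem_univ _, rfl⟩⟩
  refine ⟨p, hp, k, ik, ia, ic, A, ψ, fun v i => if h : v i ∈ A then ⟨v i, h⟩ else 0, ?_, ?_, ?_, ?_⟩
  · intro v hv i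
    simp only [dif_pos (m2 v hv i)]
  · intro v hv h0
    obtain ⟨i, hi⟩ : ∃ i, v i ≠ 0 := by
      by_contra h
      push Not at h
      exact hZ v hv (funext h)
    have h1 := congrFun h0 i
    simp only [dif_pos (m2 v hv i), Pi.zero_apply] at h1
    have e : (⟨v i, m2 v hv i⟩ : A) * ⟨(v i)⁻¹, m3 v hv i⟩ = 1 := by
      apply Subtype.ext
      exact mul_inv_cancel₀ hi
    have e2 := congrArg ψ e
    rw [map_mul, h1, zero_mul, map_one] at e2
    exact zero_ne_one e2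
  · refine low_spec A ψ n t₁ a₁ Z m2 lam1 hlam1 m1 _ fun v hv => ?_
    refine ⟨v, hv, ?_⟩
    funext i
    simp only [dif_pos (m2 v hv i)]
  · refine low_spec A ψ n t₂ a₂ Z m2 lam2 hlam2 m1' _ fun v hv => ?_
    refine ⟨v, hv, ?_⟩
    funext i
    simp only [dif_pos (m2 v hv i)]

end Pool.Agent.U334.CQ
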