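import Pool.Agent.U334.CQ.Stm
import Pool.Agent.H580C.CH.All

set_option autoImplicit false

universe u

namespace Pool.Agent.U334.CQ

open MvPolynomial Filter Topology Pool.Agent.Chud Pool.Agent.H580C

theorem YB_arith {N a x y : ℕ} (hN : 1 ≤ N) (ha : 2 ≤ a)
    (h : N * (y + N - 1) ≤ (a + N - 1) * (N * x + N - 1)) : y ≤ (a - 1 + N) * x + (a - 2) := by
  obtain ⟨b, rfl⟩ : ∃ b, a = b + 2 := ⟨a - 2, by omega⟩
  obtain ⟨M, rfl⟩ : ∃ M, N = M + 1 := ⟨N - 1, by omega⟩
  by_contra hcon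
  push Not at hcon
  have e1 : y + (M + 1) - 1 = y + M := by omega
  have e2 : b + 2 + (M + 1) - 1 = b + M + 2 := by omega
  have e3 : (M + 1) * x + (M + 1) - 1 = (M + 1) * x + M := by omega
  have e4 : b + 2 - 1 + (M + 1) = b + M + 2 := by omega
  have e5 : b + 2 - 2 = b := by omega
  rw [e1, e2, e3] at h
  rw [e4, e5] at hcon
  have h2 : (M + 1) * ((b + M + 2) * x + b + 1 + M) ≤ (M + 1) * (y + M) :=
    Nat.mul_le_mul_left _ (by omega)
  nlinarith

theorem t_YB : S_YB.{u} := by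
  intro k _ _ N S hN hS ha hlim x
  set a := aS S 1 with ha_def
  rcases Nat.eq_zero_or_pos x with hx | hx
  · subst hx
    refine ⟨X 0 ^ (a - 2), pow_ne_zero _ (X_ne_zero 0), ?_, ?_⟩
    · have := (isHomogeneous_X k (0 : Fin (N + 1))).pow (a - 2)
      rw [one_mul] at this
      rw [Nat.mul_zero, Nat.zero_add]
      exact this
    · intro p _
      rw [Nat.mul_zero, pow_zero, Ideal.one_eq_top]
      exact Submodule.mem_top
  have hT : 1 ≤ N * x := Nat.mul_pos hN hx
  have hDe := fun m => demailly hN S hS (N * x) m hT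
  have hpos : (0 : ℝ) < ((N * x + N - 1 : ℕ) : ℝ) := by
    have : 0 < N * x + N - 1 := by omega
    exact_mod_cast this
  have hle : ((aS S (N * x) + N - 1 : ℕ) : ℝ) / ((N * x + N - 1 : ℕ) : ℝ) ≤
      ((a : ℝ) + N - 1) / N := by
    refine ge_of_tendsto hlim ?_
    filter_upwards [eventually_ge_atTop 1] with m hm
    have hm0 : (0 : ℝ) < m := by exact_mod_cast hm
    rw [div_le_div_iff₀ hpos hm0]
    have := hDe m
    have h2 : ((m * (aS S (N * x) + N - 1) : ℕ) : ℝ) ≤ ((aS S m * (N * x + N - 1) : ℕ) : ℝ) := by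
      exact_mod_cast this
    push_cast at h2 ⊢
    linarith
  have hN0 : (0 : ℝ) < N := by exact_mod_cast hN
  rw [div_le_div_iff₀ hpos hN0] at hle
  have hle2 : (aS S (N * x) + N - 1) * N ≤ (a + N - 1) * (N * x + N - 1) := by
    have e1 : ((a + N - 1 : ℕ) : ℝ) = (a : ℝ) + N - 1 := by
      rw [Nat.cast_sub (by omega)]
      push_cast
      ring
    rw [← e1] at hle
    exact_mod_cast hle
  rw [Nat.mul_comm] at hle2
  have hfin := YB_arith hN ha hle2
  obtain ⟨⟨F, hF0, hFh, hFv⟩, -⟩ := t_AS k N (N * x) S hN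
  refine ⟨F * X 0 ^ ((a - 1 + N) * x + (a - 2) - aS S (N * x)),
    mul_ne_zero hF0 (pow_ne_zero _ (X_ne_zero 0)), ?_, ?_⟩
  · have := hFh.mul ((isHomogeneous_X k (0 : Fin (N + 1))).pow
      ((a - 1 + N) * x + (a - 2) - aS S (N * x)))
    rw [one_mul, Nat.add_sub_cancel' hfin] at this
    exact this
  · intro p hp
    exact Ideal.mul_mem_right _ _ (hFv p hp)

end Pool.Agent.U334.CQ
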