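import Pool.Agent.U334.CQ.MN
import Pool.Agent.U334.CQ.PA
import Pool.Agent.U334.CQ.YB
import Pool.Agent.U334.CQ.Core
import Pool.Agent.U334.CQ.Main
import Pool.Agent.U334.CQ.T_SL
import Pool.Agent.U334.CQ.T_OL
import Pool.Agent.U334.CQ.T_DC
import Pool.Agent.U334.CQ.T_MX
import Pool.Agent.U334.CQ.T_KL
import Pool.Agent.U334.CQ.T_FN
import Pool.Agent.U334.CQ.T_RK
import Pool.Agent.U334.CQ.T_TR

set_option autoImplicit false

universe u

namespace Pool.Agent.U334.CQ

open MvPolynomial Filter Topology Pool.Agent.Chud Pool.Agent.H580C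

theorem p_PA : S_PA.{u} := t_PA p_HX t_HP t_LU p_TN p_TS

theorem p_FN : S_FN.{u} := t_FN (t_KL t_SL t_OL t_DC) t_MX2

theorem p_CORE : S_CORE.{u} := core_of t_MN p_PA p_FN p_ML t_SU t_CE t_CO

/-- **Equality in Chudnovsky's bound for the Waldschmidt constant.** -/
theorem waldschmidt_equality (k : Type u) [Field k] [IsAlgClosed k] (N : ℕ) (hN : 1 ≤ N)
    (S : Finset (PP k N))
    (h : Tendsto (fun m : ℕ => (aS S m : ℝ) / m) atTop (𝓝 (((aS S 1 : ℝ) + N - 1) / N))) :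
    InHyperplane S ∨ IsStar S :=
  main_of p_CORE p_CORE t_RK t_TR2 t_YB k N hN S h

end Pool.Agent.U334.CQ
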