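import Pool.Agent.U334.CQ.Stm

set_option autoImplicit false

universe u

namespace Pool.Agent.U334.CQ

open MvPolynomial Pool.Agent.Chud Pool.Agent.H580C

theorem mem_one {k : Type*} [Field k] {N : ℕ} (v : Fin N → k) (F : MvPolynomial (Fin N) k) :
    F ∈ mI v ^ 1 ↔ eval v F = 0 := by
  rw [pow_one]
  exact RingHom.mem_ker

theorem t_MN : S_MN.{u} := by
  classical
  intro k _ N a S ha hnz hS
  -- a minimal subset
  obtain ⟨S', hS', hmin⟩ : ∃ S' ⊆ S, LowT (S' : Set (Fin (N + 1) → k)) 1 a ∧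
      ∀ T ⊆ S', LowT (T : Set (Fin (N + 1) → k)) 1 a → T = S' := by
    have hex : (S.powerset.filter (fun T : Finset (Fin (N + 1) → k) => LowT (T : Set (Fin (N + 1) → k)) 1 a)).Nonempty :=
      ⟨S, by simp [hS]⟩
    obtain ⟨S', h1, h2⟩ := Finset.exists_min_image _ Finset.card hex
    rw [Finset.mem_filter, Finset.mem_powerset] at h1
    refine ⟨S', h1.1, h1.2, ?_⟩
    intro T hT hTl
    refine Finset.eq_of_subset_of_card_le hT (h2 T ?_)
    rw [Finset.mem_filter, Finset.mem_powerset]
    exact ⟨hT.trans h1.1, hTl⟩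
  obtain ⟨hlow, hmin⟩ := hmin
  refine ⟨S', hS', hlow, ?_⟩
  have key : ∀ p ∈ S', ∃ h : MvPolynomial (Fin (N + 1)) k, h.IsHomogeneous (a - 1) ∧
      eval p h = 1 ∧ ∀ q ∈ S', q ≠ p → eval q h = 0 := by
    intro p hp
    have h1 : ¬ LowT ((S'.erase p : Finset (Fin (N + 1) → k)) : Set (Fin (N + 1) → k)) 1 a := by
      intro hl
      have := hmin _ (Finset.erase_subset p S') hl
      have h2 : p ∈ S'.erase p := by rw [this]; exact hp
      simp at h2
    unfold LowT at h1
    push Not at h1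
    obtain ⟨f, d, hf0, hfd, hfv, hda⟩ := h1
    have hfv' : ∀ q ∈ S', q ≠ p → eval q f = 0 := by
      intro q hq hqp
      rw [← mem_one]
      exact hfv _ (Finset.mem_coe.2 (Finset.mem_erase.2 ⟨hqp, hq⟩))
    have hfp : eval p f ≠ 0 := by
      intro h2
      have := hlow f d hf0 hfd (by
        intro q hq
        rw [mem_one]
        by_cases hqp : q = p
        · rw [hqp]; exact h2
        · exact hfv' q (Finset.mem_coe.1 hq) hqp)
      omega
    obtain ⟨i, hi⟩ : ∃ i, p i ≠ 0 := by
      by_contra hcon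
      push Not at hcon
      exact hnz p (hS' hp) (funext hcon)
    have hlp : eval p (X i : MvPolynomial (Fin (N + 1)) k) ≠ 0 := by rwa [eval_X]
    set g := f * X i ^ (a - 1 - d) with hg
    have hgd : g.IsHomogeneous (a - 1) := by
      have := hfd.mul ((isHomogeneous_X k i).pow (a - 1 - d))
      have he : d + 1 * (a - 1 - d) = a - 1 := by omega
      rw [he] at this
      exact this
    have hgp : eval p g ≠ 0 := by
      rw [hg, map_mul, map_pow]
      exact mul_ne_zero hfp (pow_ne_zero _ hlp)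
    refine ⟨C ((eval p g)⁻¹) * g, ?_, ?_, ?_⟩
    · have := (isHomogeneous_C (Fin (N + 1)) ((eval p g)⁻¹)).mul hgd
      rwa [zero_add] at this
    · rw [map_mul, eval_C, inv_mul_cancel₀ hgp]
    · intro q hq hqp
      have h0 : eval q g = 0 := by rw [hg, map_mul, hfv' q hq hqp, zero_mul]
      rw [map_mul, h0, mul_zero]
  choose! h hh using key
  exact ⟨h, hh⟩

end Pool.Agent.U334.CQ
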